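import Mathlib
import Pool.Agent.H58R.Lev

set_option autoImplicit false

/-!
# Relative norms of `1 - ζ`
-/

namespace Run7.h332

open Pool.Agent.H58P (Qb ht qb_isIntegral)
open Pool.Agent.H58R (val_root val_one_sub_eq val_one_sub_pow primitive_of exists_over)

/-- the product of the numbers `1 - ζ ^ (a b)`, over all `b` with `b ^ m = 1` -/
noncomputable def per {R : Type*} [CommRing R] {p : ℕ} [Fact p.Prime] (m : ℕ) (ζ : R)
    (a : (ZMod p)ˣ) : R :=
  ∏ b ∈ Finset.univ.filter (fun b : (ZMod p)ˣ => b ^ m = 1),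
    (1 - ζ ^ ((a * b : (ZMod p)ˣ) : ZMod p).val)

section
variable {p : ℕ} [hp : Fact p.Prime] (m : ℕ)

lemma map_per {R S : Type*} [CommRing R] [CommRing S] (φ : R →+* S) (ζ : R) (a : (ZMod p)ˣ) :
    φ (per m ζ a) = per m (φ ζ) a := by
  unfold per
  rw [map_prod]
  refine Finset.prod_congr rfl fun b _ => ?_
  rw [map_sub, map_one, map_pow]

lemma pow_val_mul {R : Type*} [CommRing R] (ζ : R) (hζ : ζ ^ p = 1) (c d : ZMod p) :
    (ζ ^ c.val) ^ d.val = ζ ^ (c * d).val := by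
  rw [← pow_mul, ZMod.val_mul]
  conv_lhs => rw [← Nat.div_add_mod (c.val * d.val) p, pow_add, pow_mul, hζ, one_pow, one_mul]

lemma per_pow {R : Type*} [CommRing R] (ζ : R) (hζ : ζ ^ p = 1) (a c : (ZMod p)ˣ) :
    per m (ζ ^ (c : ZMod p).val) a = per m ζ (c * a) := by
  unfold per
  refine Finset.prod_congr rfl fun b _ => ?_
  rw [pow_val_mul ζ hζ]
  simp only [Units.val_mul, mul_assoc]

lemma per_congr {R : Type*} [CommRing R] (ζ : R) (a b : (ZMod p)ˣ) (h : a ^ m = b ^ m) :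
    per m ζ a = per m ζ b := by
  unfold per
  refine Finset.prod_bij' (fun x _ => b⁻¹ * a * x) (fun x _ => a⁻¹ * b * x) ?_ ?_ ?_ ?_ ?_
  · intro x hx
    simp only [Finset.mem_filter, Finset.mem_univ, true_and] at hx ⊢
    rw [mul_pow, mul_pow, hx, inv_pow, h]
    simp
  · intro x hx
    simp only [Finset.mem_filter, Finset.mem_univ, true_and] at hx ⊢
    rw [mul_pow, mul_pow, hx, inv_pow, h]
    simp
  · intro x _
    group
  · intro x _
    group
  · intro x _
    have : b * (b⁻¹ * a * x) = a * x := by group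
    rw [this]

lemma card_filter (hm : m ∣ p - 1) :
    (Finset.univ.filter (fun b : (ZMod p)ˣ => b ^ m = 1)).card = m := by
  have h1 := IsCyclic.card_powMonoidHom_ker (ZMod p)ˣ m
  have h2 : Nat.card (ZMod p)ˣ = p - 1 := by
    rw [Nat.card_eq_fintype_card, ZMod.card_units_eq_totient, Nat.totient_prime hp.out]
  rw [h2, Nat.gcd_eq_right hm, ← SetLike.coe_sort_coe, Nat.card_coe_set_eq] at h1
  have h3 : ((Finset.univ.filter (fun b : (ZMod p)ˣ => b ^ m = 1) : Finset (ZMod p)ˣ) :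
      Set (ZMod p)ˣ) = ((powMonoidHom m : (ZMod p)ˣ →* (ZMod p)ˣ).ker : Set (ZMod p)ˣ) := by
    ext b
    simp [MonoidHom.mem_ker]
  rw [← Set.ncard_coe_finset, h3, h1]

variable {G : Type*} [LinearOrderedCommGroupWithZero G] (v : Valuation Qb G)

lemma pow_val_ne_one {ζ : Qb} (hζ : IsPrimitiveRoot ζ p) (c : (ZMod p)ˣ) :
    ζ ^ (c : ZMod p).val ≠ 1 := by
  intro h
  have h1 := (hζ.pow_eq_one_iff_dvd _).mp h
  have h2 : (((c : ZMod p).val : ℕ) : ZMod p) = 0 := (ZMod.natCast_eq_zero_iff _ _).mpr h1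
  rw [ZMod.natCast_zmod_val] at h2
  exact c.ne_zero h2

omit hp in
lemma pow_val_pow {ζ : Qb} (hζ : ζ ^ p = 1) (n : ℕ) : (ζ ^ n) ^ p = 1 := by
  rw [← pow_mul, mul_comm, pow_mul, hζ, one_pow]

lemma val_per {ζ : Qb} (hζ : IsPrimitiveRoot ζ p) (hm : m ∣ p - 1) (a : (ZMod p)ˣ) :
    v (per m ζ a) = v (1 - ζ) ^ m := by
  have h1 : ζ ≠ 1 := hζ.ne_one hp.out.one_lt
  unfold per
  rw [map_prod]
  rw [Finset.prod_congr rfl (g := fun _ => v (1 - ζ))]
  · rw [Finset.prod_const, card_filter m hm]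
  · intro b _
    exact val_one_sub_eq v p hp.out _ _ (pow_val_pow hζ.pow_eq_one _) (pow_val_ne_one hζ _)
      hζ.pow_eq_one h1

lemma val_per_pow {ζ : Qb} (hζ : IsPrimitiveRoot ζ p) (e : ℕ) (he : e * m = p - 1)
    (a : (ZMod p)ˣ) : v (per m ζ a) ^ e = v (p : Qb) := by
  rw [val_per m v hζ ⟨e, by rw [← he, mul_comm]⟩, ← pow_mul, mul_comm, he]
  exact val_one_sub_pow v p hp.out ζ hζ.pow_eq_one (hζ.ne_one hp.out.one_lt)

/-- the quotient of `1 - ξ ^ n` and `1 - ξ` is congruent to `n` -/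
lemma val_geom_sub (ξ : Qb) (h : ξ ^ p = 1) (hv : v (p : Qb) < 1) (n : ℕ) :
    v (∑ i ∈ Finset.range n, ξ ^ i - n) < 1 := by
  have hξ : v (1 - ξ) < 1 := by
    have h1 := Pool.Agent.H58R.val_one_sub_pow_le' v p hp.out ξ h
    have h2 : v (1 - ξ) ^ (p - 1) < 1 := lt_of_le_of_lt h1 hv
    by_contra hcon
    exact absurd h2 (not_lt.mpr (one_le_pow₀ (not_lt.mp hcon)))
  have e : ∑ i ∈ Finset.range n, ξ ^ i - n = ∑ i ∈ Finset.range n, (ξ ^ i - 1) := by
    rw [Finset.sum_sub_distrib]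
    simp
  rw [e]
  apply Valuation.map_sum_lt v one_ne_zero
  intro i _
  rw [Valuation.map_sub_swap]
  exact lt_of_le_of_lt (Pool.Agent.H58R.val_one_sub_pow_le v ξ (val_root v ξ p hp.out.pos h) i) hξ

lemma val_prod_sub {ι : Type*} (s : Finset ι) (f g : ι → Qb) (hf : ∀ i ∈ s, v (f i) ≤ 1)
    (hg : ∀ i ∈ s, v (g i) ≤ 1) (h : ∀ i ∈ s, v (f i - g i) < 1) :
    v (∏ i ∈ s, f i - ∏ i ∈ s, g i) < 1 := by
  classical
  induction s using Finset.induction_on with
  | empty => simp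
  | insert i s hi ih =>
    rw [Finset.prod_insert hi, Finset.prod_insert hi]
    have ih' := ih (fun j hj => hf j (Finset.mem_insert_of_mem hj))
      (fun j hj => hg j (Finset.mem_insert_of_mem hj)) (fun j hj => h j (Finset.mem_insert_of_mem hj))
    have e : f i * ∏ x ∈ s, f x - g i * ∏ x ∈ s, g x =
        f i * (∏ x ∈ s, f x - ∏ x ∈ s, g x) + (f i - g i) * ∏ x ∈ s, g x := by ring
    rw [e]
    apply Valuation.map_add_lt
    · rw [map_mul]
      exact mul_lt_one_of_nonneg_of_lt_one_right (hf i (Finset.mem_insert_self _ _)) zero_le ih'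
    · rw [map_mul]
      apply mul_lt_one_of_nonneg_of_lt_one_left zero_le (h i (Finset.mem_insert_self _ _))
      rw [map_prod]
      exact Finset.prod_le_one' fun j hj => hg j (Finset.mem_insert_of_mem hj)

/-- the numbers `per m ζ a` determine `a ^ m` -/
lemma per_inj {ζ : Qb} (hζ : IsPrimitiveRoot ζ p) (hm : m ∣ p - 1) (a b : (ZMod p)ˣ)
    (hab : per m ζ a = per m ζ b) : a ^ m = b ^ m := by
  obtain ⟨V, hV⟩ := exists_over p hp.out
  set w := V.valuation with hw
  set S : Finset (ZMod p)ˣ := Finset.univ.filter (fun b : (ZMod p)ˣ => b ^ m = 1) with hS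
  -- factorisation
  have hfac : ∀ c : (ZMod p)ˣ, per m ζ c = per m ζ (1 : (ZMod p)ˣ) *
      ∏ x ∈ S, ∑ i ∈ Finset.range (c : ZMod p).val, (ζ ^ (x : ZMod p).val) ^ i := by
    intro c
    unfold per
    rw [← hS, ← Finset.prod_mul_distrib]
    refine Finset.prod_congr rfl fun x _ => ?_
    rw [one_mul, mul_comm c x, Units.val_mul, ← pow_val_mul ζ hζ.pow_eq_one (x : ZMod p)]
    exact (mul_neg_geom_sum _ _).symm
  have hint : ∀ n : ℕ, w (n : Qb) ≤ 1 := by
    intro n
    rw [hw, ValuationSubring.valuation_le_one_iff]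
    exact natCast_mem V n
  have hcong : ∀ c : (ZMod p)ˣ, w (∏ x ∈ S, ∑ i ∈ Finset.range (c : ZMod p).val,
      (ζ ^ (x : ZMod p).val) ^ i - (((c : ZMod p).val : ℕ) : Qb) ^ m) < 1 := by
    intro c
    have e : (((c : ZMod p).val : ℕ) : Qb) ^ m = ∏ x ∈ S, (((c : ZMod p).val : ℕ) : Qb) := by
      rw [Finset.prod_const, hS, card_filter m hm]
    rw [e]
    apply val_prod_sub
    · intro x _
      apply Valuation.map_sum_le
      intro i _
      rw [map_pow, val_root w _ p hp.out.pos (pow_val_pow hζ.pow_eq_one _), one_pow]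
    · intro x _
      exact hint _
    · intro x _
      exact val_geom_sub w _ (pow_val_pow hζ.pow_eq_one _) hV _
  have h0 : per m ζ (1 : (ZMod p)ˣ) ≠ 0 := by
    intro h
    have h1 := val_per m w hζ hm (1 : (ZMod p)ˣ)
    rw [h, map_zero] at h1
    have h2 : 1 - ζ ≠ 0 := sub_ne_zero.mpr (hζ.ne_one hp.out.one_lt).symm
    exact (pow_ne_zero _ ((Valuation.ne_zero_iff w).mpr h2)) h1.symm
  rw [hfac a, hfac b] at hab
  have h2 := mul_left_cancel₀ h0 hab
  have h3 : w ((((a : ZMod p).val : ℕ) : Qb) ^ m - (((b : ZMod p).val : ℕ) : Qb) ^ m) < 1 := by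
    have e : (((a : ZMod p).val : ℕ) : Qb) ^ m - (((b : ZMod p).val : ℕ) : Qb) ^ m =
      (∏ x ∈ S, ∑ i ∈ Finset.range (b : ZMod p).val, (ζ ^ (x : ZMod p).val) ^ i -
        (((b : ZMod p).val : ℕ) : Qb) ^ m) -
      (∏ x ∈ S, ∑ i ∈ Finset.range (a : ZMod p).val, (ζ ^ (x : ZMod p).val) ^ i -
        (((a : ZMod p).val : ℕ) : Qb) ^ m) := by
      rw [h2]; ring
    rw [e]
    exact Valuation.map_sub_lt _ (hcong b) (hcong a)
  -- an integer with value less than one is divisible by `p`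
  have h4 : (p : ℤ) ∣ ((a : ZMod p).val : ℤ) ^ m - ((b : ZMod p).val : ℤ) ^ m := by
    by_contra hnd
    have hcop : IsCoprime (p : ℤ) (((a : ZMod p).val : ℤ) ^ m - ((b : ZMod p).val : ℤ) ^ m) :=
      (Prime.coprime_iff_not_dvd (Nat.prime_iff_prime_int.mp hp.out)).mpr hnd
    obtain ⟨x, y, hxy⟩ := hcop
    have hint' : ∀ n : ℤ, w (n : Qb) ≤ 1 := by
      intro n
      rw [hw, ValuationSubring.valuation_le_one_iff]
      exact intCast_mem V n
    have e : (1 : Qb) = (x : Qb) * p + (y : Qb) *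
        ((((a : ZMod p).val : ℕ) : Qb) ^ m - (((b : ZMod p).val : ℕ) : Qb) ^ m) := by
      have := congrArg (fun z : ℤ => (z : Qb)) hxy
      push_cast at this
      rw [← this]
    have h5 : w (1 : Qb) < 1 := by
      rw [e]
      apply Valuation.map_add_lt
      · rw [map_mul]
        exact mul_lt_one_of_nonneg_of_lt_one_right (hint' x) zero_le hV
      · rw [map_mul]
        exact mul_lt_one_of_nonneg_of_lt_one_right (hint' y) zero_le h3
    rw [map_one] at h5
    exact lt_irrefl _ h5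
  have h5 : (((((a : ZMod p).val : ℤ) ^ m - ((b : ZMod p).val : ℤ) ^ m : ℤ)) : ZMod p) = 0 :=
    (ZMod.intCast_zmod_eq_zero_iff_dvd _ _).mpr h4
  push_cast at h5
  rw [ZMod.natCast_zmod_val, ZMod.natCast_zmod_val, sub_eq_zero] at h5
  apply Units.ext
  push_cast
  exact h5

end

end Run7.h332
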