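import Mathlib

set_option autoImplicit false

/-!
# The choice of the primes
-/

namespace Run7.h332

/-- every odd prime has a nonsquare -/
lemma exists_nonsquare (q : ℕ) (hq : q.Prime) (hq2 : q ≠ 2) :
    ∃ r : ℕ, ¬ IsSquare (r : ZMod q) := by
  have hq' : Fact q.Prime := ⟨hq⟩
  obtain ⟨a, ha⟩ := FiniteField.exists_nonsquare (F := ZMod q) (by
    rw [ZMod.ringChar_zmod_n]; exact hq2)
  exact ⟨a.val, by rwa [ZMod.natCast_zmod_val]⟩

lemma exists_residue (k : ℕ) (S : Finset ℕ) (hS : ∀ q ∈ S, q.Prime ∧ q ≠ 2) :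
    ∃ x : ℕ, x ≡ 1 [MOD 2 ^ k] ∧ ∀ q ∈ S, ¬ IsSquare (x : ZMod q) := by
  classical
  induction S using Finset.induction_on with
  | empty => exact ⟨1, rfl, by simp⟩
  | insert q S hqS ih =>
    obtain ⟨x, hx1, hx2⟩ := ih fun q' hq' => hS q' (Finset.mem_insert_of_mem hq')
    obtain ⟨hq, hq2⟩ := hS q (Finset.mem_insert_self _ _)
    obtain ⟨r, hr⟩ := exists_nonsquare q hq hq2
    have hco : (2 ^ k * ∏ q' ∈ S, q').Coprime q := by
      apply Nat.Coprime.mul_left
      · apply Nat.Coprime.pow_left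
        exact (Nat.coprime_primes Nat.prime_two hq).mpr hq2.symm
      · apply Nat.Coprime.prod_left
        intro q' hq'
        refine (Nat.coprime_primes (hS q' (Finset.mem_insert_of_mem hq')).1 hq).mpr ?_
        rintro rfl
        exact hqS hq'
    obtain ⟨y, hy1, hy2⟩ := Nat.chineseRemainder hco x r
    refine ⟨y, ?_, ?_⟩
    · exact (hy1.of_dvd (Dvd.intro _ rfl)).trans hx1
    · intro q' hq'
      rcases Finset.mem_insert.mp hq' with rfl | h
      · have : (y : ZMod q') = r := (ZMod.natCast_eq_natCast_iff _ _ _).mpr hy2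
        rwa [this]
      · have h1 : y ≡ x [MOD q'] :=
          hy1.of_dvd ((Finset.dvd_prod_of_mem (fun i : ℕ => i) h).trans (Dvd.intro_left _ rfl))
        have : (y : ZMod q') = x := (ZMod.natCast_eq_natCast_iff _ _ _).mpr h1
        rw [this]
        exact hx2 q' h

lemma exists_prime (n B : ℕ) : ∃ p m : ℕ, p.Prime ∧ B < p ∧ 2 ^ (n + 2) * m = p - 1 ∧
    (n : ℝ) * 2 ^ (n + 2) ≤ Real.log p ∧
    ∀ q : ℕ, q.Prime → q ≠ 2 → q ≤ n → (q : ZMod p) ^ (2 ^ (n + 1) * m) = -1 := by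
  classical
  set S : Finset ℕ := (Finset.range (n + 1)).filter (fun q => q.Prime ∧ q ≠ 2) with hS
  have hS' : ∀ q ∈ S, q.Prime ∧ q ≠ 2 := fun q hq => (Finset.mem_filter.mp hq).2
  obtain ⟨x, hx1, hx2⟩ := exists_residue (n + 2) S hS'
  have hN0 : 2 ^ (n + 2) * ∏ q ∈ S, q ≠ 0 := by
    apply mul_ne_zero (by positivity)
    rw [Finset.prod_ne_zero_iff]
    exact fun q hq => (hS' q hq).1.ne_zero
  have hco : x.Coprime (2 ^ (n + 2) * ∏ q ∈ S, q) := by
    apply Nat.Coprime.mul_right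
    · have h1 : x.gcd (2 ^ (n + 2)) = (1 : ℕ).gcd (2 ^ (n + 2)) := hx1.gcd_eq
      rw [Nat.gcd_one_left] at h1
      exact h1
    · apply Nat.Coprime.prod_right
      intro q hq
      rw [Nat.coprime_comm, Nat.Prime.coprime_iff_not_dvd (hS' q hq).1]
      intro hd
      apply hx2 q hq
      rw [(ZMod.natCast_eq_zero_iff _ _).mpr hd]
      exact IsSquare.zero
  obtain ⟨p, hpB, hp, hpx⟩ := Nat.forall_exists_prime_gt_and_modEq
    (max B ⌈Real.exp ((n : ℝ) * 2 ^ (n + 2))⌉₊) hN0 hco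
  have h2 : p ≡ 1 [MOD 2 ^ (n + 2)] := (hpx.of_dvd (Dvd.intro _ rfl)).trans hx1
  obtain ⟨m, hm⟩ := (Nat.modEq_iff_dvd' hp.one_lt.le).mp h2.symm
  have hp' : Fact p.Prime := ⟨hp⟩
  refine ⟨p, m, hp, lt_of_le_of_lt (le_max_left _ _) hpB, hm.symm, ?_, ?_⟩
  · rw [Real.le_log_iff_exp_le (by exact_mod_cast hp.pos)]
    refine (Nat.le_ceil _).trans ?_
    exact_mod_cast (lt_of_le_of_lt (le_max_right _ _) hpB).le
  · intro q hq hq2 hqn
    have hqS : q ∈ S := by
      rw [hS, Finset.mem_filter, Finset.mem_range]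
      exact ⟨by omega, hq, hq2⟩
    have hq' : Fact q.Prime := ⟨hq⟩
    have h3 : (p : ZMod q) = x := by
      apply (ZMod.natCast_eq_natCast_iff _ _ _).mpr
      exact hpx.of_dvd ((Finset.dvd_prod_of_mem (fun i : ℕ => i) hqS).trans (Dvd.intro_left _ rfl))
    have h4 : ¬ IsSquare (p : ZMod q) := by
      rw [h3]
      exact hx2 q hqS
    have h5 : p % 4 = 1 := by
      have h6 : p ≡ 1 [MOD 4] := h2.of_dvd ⟨2 ^ n, by ring⟩
      exact h6
    have h6 : ¬ IsSquare (q : ZMod p) := by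
      rwa [ZMod.exists_sq_eq_prime_iff_of_mod_four_eq_one h5 hq2]
    have h7 : (q : ZMod p) ≠ 0 := by
      intro h
      rw [h] at h6
      exact h6 IsSquare.zero
    have h8 : p / 2 = 2 ^ (n + 1) * m := by
      have : p = 2 ^ (n + 2) * m + 1 := by
        have := hp.pos
        omega
      have h9 : 2 ^ (n + 2) * m = 2 * (2 ^ (n + 1) * m) := by ring
      omega
    rw [← h8]
    rcases ZMod.pow_div_two_eq_neg_one_or_one p h7 with h9 | h9
    · exact absurd ((ZMod.euler_criterion p h7).mpr h9) h6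
    · exact h9

/-- the sequence of primes -/
lemma exists_seq : ∃ p m : ℕ → ℕ, (∀ n, (p n).Prime) ∧ StrictMono p ∧
    (∀ n, 2 ^ (n + 2) * m n = p n - 1) ∧
    (∀ n : ℕ, (n : ℝ) * 2 ^ (n + 2) ≤ Real.log (p n)) ∧
    ∀ n q : ℕ, q.Prime → q ≠ 2 → q ≤ n → (q : ZMod (p n)) ^ (2 ^ (n + 1) * m n) = -1 := by
  choose P M h1 h2 h3 h4 h5 using exists_prime
  let p : ℕ → ℕ := fun n => Nat.rec (P 0 0) (fun n b => P (n + 1) b) n
  let b : ℕ → ℕ := fun n => Nat.casesOn n 0 p
  have hp : ∀ n, p n = P n (b n) := by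
    intro n
    cases n with
    | zero => rfl
    | succ n => rfl
  refine ⟨p, fun n => M n (b n), ?_, ?_, ?_, ?_, ?_⟩
  · intro n
    rw [hp]
    exact h1 n _
  · apply strictMono_nat_of_lt_succ
    intro n
    rw [hp (n + 1)]
    exact h2 (n + 1) _
  · intro n
    rw [hp]
    exact h3 n _
  · intro n
    rw [hp]
    exact h4 n _
  · intro n
    rw [hp]
    exact h5 n _

end Run7.h332
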