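import Mathlib
import Pool.Agent.H58R.Zeta

set_option autoImplicit false

/-!
# A lower bound for the height of a number whose conjugate is close to it at `p`
-/

namespace Run7.h332

open NumberField Height Module
open Pool.Agent.Helper259.AbsHt
open Pool.Agent.H58P (Qb ht qb_isIntegral)
open Pool.Agent.H58B (exists_valuationSubring ht_conj absLogHeight_four ht_pow)

/-- a lower bound for the height of a vector from local conditions, with an arbitrary constant -/
theorem height_ge_const {ι : Type*} [Finite ι] [Nonempty ι] (x : ι → Qb) (R : ℝ) (hR : 0 < R)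
    (hV : ∀ V : ValuationSubring Qb, ∃ i, 1 ≤ V.valuation (x i))
    (hφ : ∀ φ : Qb →+* ℂ, ∃ i, R ≤ ‖φ (x i)‖) : Real.log R ≤ absLogHeight x := by
  obtain ⟨L, hL, hmem⟩ := exists_nf (Set.range x) (Set.finite_range x)
  obtain ⟨y, rfl⟩ := lift_vec L x fun i => hmem _ ⟨i, rfl⟩
  rw [val_eq, le_div_iff₀ (finrank_pos' L), logHeight_eq_log_mulHeight]
  have hy : y ≠ 0 := by
    rintro rfl
    obtain ⟨V⟩ : Nonempty (ValuationSubring Qb) := inferInstance
    obtain ⟨i, hi⟩ := hV V
    simp at hi
  have hbdd : ∀ v : L → ℝ, BddAbove (Set.range fun i => v (y i)) := fun v =>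
    (Set.finite_range _).bddAbove
  have h1 : R ^ finrank ℚ L ≤ ∏ v : InfinitePlace L, (⨆ i, v (y i)) ^ v.mult := by
    rw [← InfinitePlace.sum_mult_eq (K := L), ← Finset.prod_pow_eq_pow_sum]
    apply Finset.prod_le_prod
    · intro v _
      positivity
    · intro v _
      apply pow_le_pow_left₀ hR.le
      let _ : Algebra L ℂ := v.embedding.toAlgebra
      have halg : Algebra.IsAlgebraic L Qb := ⟨fun z =>
        ((qb_isIntegral z).tower_top (A := L)).isAlgebraic⟩
      let ψ : Qb →ₐ[L] ℂ := IsAlgClosed.lift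
      obtain ⟨i, hi⟩ := hφ (ψ : Qb →+* ℂ)
      have h2 : v (y i) = ‖(ψ : Qb →+* ℂ) (y i : Qb)‖ := by
        have h3 : (ψ : Qb →+* ℂ) (y i : Qb) = v.embedding (y i) := ψ.commutes (y i)
        rw [h3, InfinitePlace.norm_embedding_eq]
      rw [← h2] at hi
      exact hi.trans (le_ciSup (hbdd v) i)
  have h2 : (1 : ℝ) ≤ ∏ᶠ v : FinitePlace L, ⨆ i, v (y i) := by
    apply one_le_finprod
    intro v
    obtain ⟨V, hVv⟩ := exists_valuationSubring L v
    obtain ⟨i, hi⟩ := hV V
    have h3 : 1 ≤ v (y i) := by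
      by_contra hcon
      exact absurd (hVv (y i) (not_le.mp hcon)) (not_lt.mpr hi)
    exact h3.trans (le_ciSup (hbdd v) i)
  rw [NumberField.mulHeight_eq hy, mul_comm (Real.log R), ← Real.log_pow]
  apply Real.log_le_log (by positivity)
  have h3 : (0 : ℝ) < R ^ finrank ℚ L := by positivity
  calc R ^ finrank ℚ L = R ^ finrank ℚ L * 1 := (mul_one _).symm
    _ ≤ _ := mul_le_mul h1 h2 zero_le_one (h3.le.trans h1)

/-- the basic inequality: a conjugate close to the number at all places over `p` -/
theorem ht_ram (p : ℕ) (hp : p.Prime) (e : ℕ) (he : 0 < e) (α β : Qb) (hαβ : ht β = ht α)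
    (hne : α ≠ β)
    (hV : ∀ V : ValuationSubring Qb, V.valuation (p : Qb) < 1 →
      V.valuation (α - β) ^ e ≤ V.valuation (p : Qb) * (max 1 (V.valuation α) ^ e *
        max 1 (V.valuation β) ^ e)) :
    (Real.log p / e - Real.log 2) / 2 ≤ ht α := by
  set D := α - β with hDdef
  have hD0 : D ≠ 0 := sub_ne_zero.mpr hne
  have hp0 : (p : Qb) ≠ 0 := by exact_mod_cast hp.ne_zero
  set c : Qb := (p : Qb) * (D ^ e)⁻¹ with hc
  have hc0 : c ≠ 0 := mul_ne_zero hp0 (inv_ne_zero (pow_ne_zero _ hD0))
  set w : Fin 2 × Fin 2 → Qb := fun a =>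
    (![1, α ^ e] : Fin 2 → Qb) a.1 * (![1, β ^ e] : Fin 2 → Qb) a.2 with hw
  have hsm : absLogHeight (c • w) = absLogHeight w := absLogHeight_smul w hc0
  have h4 : absLogHeight w = 2 * e * ht α := by
    rw [hw, absLogHeight_four, ht_pow, ht_pow, hαβ]
    ring
  -- the largest coordinate at a valuation subring
  have hcoord : ∀ V : ValuationSubring Qb, ∃ i, V.valuation ((c • w) i) =
      V.valuation c * (max 1 (V.valuation α) ^ e * max 1 (V.valuation β) ^ e) := by
    intro V
    rcases le_total (V.valuation α) 1 with h1 | h1 <;>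
    rcases le_total (V.valuation β) 1 with h2 | h2
    · refine ⟨(0, 0), ?_⟩
      rw [max_eq_left h1, max_eq_left h2]
      simp [hw]
    · refine ⟨(0, 1), ?_⟩
      rw [max_eq_left h1, max_eq_right h2]
      simp [hw]
    · refine ⟨(1, 0), ?_⟩
      rw [max_eq_right h1, max_eq_left h2]
      simp [hw]
    · refine ⟨(1, 1), ?_⟩
      rw [max_eq_right h1, max_eq_right h2]
      simp [hw]
  have hcoord2 : ∀ φ : Qb →+* ℂ, ∃ i, ‖φ ((c • w) i)‖ =
      ‖φ c‖ * (max 1 ‖φ α‖ ^ e * max 1 ‖φ β‖ ^ e) := by
    intro φ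
    rcases le_total ‖φ α‖ 1 with h1 | h1 <;>
    rcases le_total ‖φ β‖ 1 with h2 | h2
    · refine ⟨(0, 0), ?_⟩
      rw [max_eq_left h1, max_eq_left h2]
      simp [hw]
    · refine ⟨(0, 1), ?_⟩
      rw [max_eq_left h1, max_eq_right h2]
      simp [hw]
    · refine ⟨(1, 0), ?_⟩
      rw [max_eq_right h1, max_eq_left h2]
      simp [hw]
    · refine ⟨(1, 1), ?_⟩
      rw [max_eq_right h1, max_eq_right h2]
      simp [hw]
  have hppos : (0 : ℝ) < p := by exact_mod_cast hp.pos
  have key : Real.log ((p : ℝ) / 2 ^ e) ≤ absLogHeight (c • w) := by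
    apply height_ge_const _ _ (by positivity)
    · intro V
      obtain ⟨i, hi⟩ := hcoord V
      refine ⟨i, ?_⟩
      rw [hi]
      have hvD : V.valuation (D ^ e) ≠ 0 := (Valuation.ne_zero_iff _).mpr (pow_ne_zero _ hD0)
      set m := max 1 (V.valuation α) ^ e * max 1 (V.valuation β) ^ e with hm
      have hle : V.valuation (D ^ e) ≤ V.valuation (p : Qb) * m := by
        have hpV : V.valuation (p : Qb) ≤ 1 := by
          rw [ValuationSubring.valuation_le_one_iff]
          exact natCast_mem V p
        rcases lt_or_eq_of_le hpV with h | h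
        · rw [map_pow]
          exact hV V h
        · rw [h, one_mul, hm, map_pow, ← mul_pow]
          apply pow_le_pow_left₀ zero_le
          refine (Valuation.map_sub _ _ _).trans ?_
          rcases le_total (V.valuation α) (V.valuation β) with h1 | h1
          · rw [max_eq_right h1]
            calc V.valuation β ≤ max 1 (V.valuation β) := le_max_right _ _
              _ = 1 * max 1 (V.valuation β) := (one_mul _).symm
              _ ≤ _ := mul_le_mul_left (le_max_left _ _) _
          · rw [max_eq_left h1]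
            calc V.valuation α ≤ max 1 (V.valuation α) := le_max_right _ _
              _ = max 1 (V.valuation α) * 1 := (mul_one _).symm
              _ ≤ _ := mul_le_mul_right (le_max_left _ _) _
      rw [hc, map_mul, map_inv₀]
      calc (1 : _) = (V.valuation (D ^ e))⁻¹ * V.valuation (D ^ e) := (inv_mul_cancel₀ hvD).symm
        _ ≤ (V.valuation (D ^ e))⁻¹ * (V.valuation (p : Qb) * m) := mul_le_mul_right hle _
        _ = V.valuation (p : Qb) * (V.valuation (D ^ e))⁻¹ * m := by
            rw [← mul_assoc, mul_comm (V.valuation (p : Qb))]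
    · intro φ
      obtain ⟨i, hi⟩ := hcoord2 φ
      refine ⟨i, ?_⟩
      rw [hi]
      have hnD : 0 < ‖φ D‖ := norm_pos_iff.mpr (by
        intro h
        exact hD0 ((map_eq_zero φ).mp h))
      have hca : ‖φ c‖ = p / ‖φ D‖ ^ e := by
        rw [hc, map_mul, map_inv₀, map_pow, norm_mul, norm_inv, norm_pow, map_natCast,
          Complex.norm_natCast, div_eq_mul_inv]
      rw [hca, ← mul_pow]
      set M := max 1 ‖φ α‖ * max 1 ‖φ β‖ with hM
      have hDM : ‖φ D‖ ≤ 2 * M := by
        have h1 : ‖φ D‖ ≤ ‖φ α‖ + ‖φ β‖ := by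
          rw [hDdef, map_sub]
          exact norm_sub_le _ _
        have h2 : ‖φ α‖ ≤ M := by
          calc ‖φ α‖ ≤ max 1 ‖φ α‖ * 1 := by rw [mul_one]; exact le_max_right _ _
            _ ≤ _ := mul_le_mul_of_nonneg_left (le_max_left _ _) (by positivity)
        have h3 : ‖φ β‖ ≤ M := by
          calc ‖φ β‖ ≤ 1 * max 1 ‖φ β‖ := by rw [one_mul]; exact le_max_right _ _
            _ ≤ _ := mul_le_mul_of_nonneg_right (le_max_left _ _) (by positivity)
        linarith
      have hpow : ‖φ D‖ ^ e ≤ 2 ^ e * M ^ e := by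
        rw [← mul_pow]
        exact pow_le_pow_left₀ hnD.le hDM e
      rw [div_mul_eq_mul_div, div_le_div_iff₀ (by positivity) (by positivity)]
      nlinarith
  rw [hsm, h4, Real.log_div hppos.ne' (by positivity), Real.log_pow] at key
  have hepos : (0 : ℝ) < e := by exact_mod_cast he
  have : Real.log p / e - Real.log 2 = (Real.log p - e * Real.log 2) / e := by
    field_simp
  rw [this, div_div, div_le_iff₀ (by positivity)]
  linarith

end Run7.h332
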