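import Mathlib
import Pool.Agent.Run7.h332.Hge
import Pool.Agent.H58R.Lev

set_option autoImplicit false

/-!
# Heights in a totally ramified extension
-/

namespace Run7.h332

open Polynomial
open Pool.Agent.H58P (Qb ht qb_isIntegral alg_isIntegral)
open Pool.Agent.H58R (val_sum)
open Pool.Agent.H58B (ht_conj)

lemma expand (M : IntermediateField ℚ Qb) (π : Qb) (e : ℕ)
    (hdeg : (minpoly ℚ π).natDegree ≤ e)
    (y : Qb) (hy : y ∈ M ⊔ IntermediateField.adjoin ℚ {π}) :
    ∃ b : ℕ → M, y = ∑ j ∈ Finset.range e, (b j : Qb) * π ^ j := by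
  rw [← Pool.Agent.H58B.mem_adjoin_iff] at hy
  have hint : IsIntegral M π := alg_isIntegral M π
  have h1 : y ∈ (IntermediateField.adjoin M {π}).toSubalgebra := hy
  rw [IntermediateField.adjoin_simple_toSubalgebra_of_isAlgebraic hint.isAlgebraic,
    Algebra.adjoin_singleton_eq_range_aeval] at h1
  obtain ⟨q, hq⟩ := h1
  have hq' : aeval π q = y := hq
  have hmon : (minpoly M π).Monic := minpoly.monic hint
  have hne : minpoly M π ≠ 1 := minpoly.ne_one M π
  have hle : (minpoly M π).natDegree ≤ (minpoly ℚ π).natDegree := by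
    have h2 : minpoly M π ∣ (minpoly ℚ π).map (algebraMap ℚ M) :=
      minpoly.dvd_map_of_isScalarTower ℚ M π
    have h3 := natDegree_le_of_dvd h2 (by
      rw [Polynomial.map_ne_zero_iff (algebraMap ℚ M).injective]
      exact minpoly.ne_zero (qb_isIntegral π))
    rwa [natDegree_map] at h3
  have hlt := natDegree_modByMonic_lt q hmon hne
  have hlt' : (q %ₘ minpoly M π).natDegree < e := by omega
  rw [← aeval_modByMonic_eq_self_of_root (minpoly.aeval M π), aeval_eq_sum_range' hlt'] at hq'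
  refine ⟨fun j => (q %ₘ minpoly M π).coeff j, ?_⟩
  rw [← hq']
  apply Finset.sum_congr rfl
  intro j _
  rw [Algebra.smul_def]
  rfl

section
variable {G : Type*} [LinearOrderedCommGroupWithZero G]

lemma zpow_lt_of_lt {a : G} (h0 : a ≠ 0) (h1 : a < 1) {m n : ℤ} (h : m < n) : a ^ n < a ^ m := by
  exact zpow_lt_zpow_right_of_lt_one₀ (zero_lt_iff.mpr h0) h1 h

lemma zpow_inj {a : G} (h0 : a ≠ 0) (h1 : a < 1) {m n : ℤ} (h : a ^ m = a ^ n) : m = n := by
  rcases lt_trichotomy m n with h2 | h2 | h2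
  · exact absurd h (zpow_lt_of_lt h0 h1 h2).ne'
  · exact h2
  · exact absurd h (zpow_lt_of_lt h0 h1 h2).ne

lemma pow_le_iff {a b : G} {n : ℕ} (hn : 0 < n) (h : a ^ n ≤ b ^ n) : a ≤ b := by
  by_contra hcon
  exact absurd h (not_le.mpr (pow_lt_pow_left₀ (not_le.mp hcon) zero_le hn.ne'))

end

/-- in a totally ramified extension an element is close to its conjugates -/
theorem close (M : IntermediateField ℚ Qb) (π : Qb) (e : ℕ)
    (hdeg : (minpoly ℚ π).natDegree ≤ e) (V : ValuationSubring Qb) (p : ℕ) (hp : p.Prime)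
    (hV : V.valuation (p : Qb) < 1)
    (hM : ∀ y ∈ M, y ≠ 0 → ∃ z : ℤ, V.valuation y = V.valuation (p : Qb) ^ z)
    (hπ : V.valuation π ^ e = V.valuation (p : Qb))
    (σ : Qb ≃ₐ[ℚ] Qb) (hσ : ∀ y ∈ M, σ y = y) (hσπ : V.valuation (σ π) = V.valuation π)
    (x : Qb) (hx : x ∈ M ⊔ IntermediateField.adjoin ℚ {π}) (hx1 : V.valuation x ≤ 1) :
    V.valuation (x - σ x) ^ e ≤ V.valuation (p : Qb) := by
  classical
  have hp0 : (p : Qb) ≠ 0 := by exact_mod_cast hp.ne_zero
  set w := V.valuation with hw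
  have hvp0 : w (p : Qb) ≠ 0 := (Valuation.ne_zero_iff _).mpr hp0
  have he : 0 < e := lt_of_lt_of_le (minpoly.natDegree_pos (qb_isIntegral π)) hdeg
  obtain ⟨b, hb⟩ := expand M π e hdeg x hx
  -- the values of the terms
  have hval : ∀ j : ℕ, (b j : Qb) ≠ 0 → ∃ z : ℤ,
      w ((b j : Qb) * π ^ j) ^ e = w (p : Qb) ^ (e * z + j : ℤ) := by
    intro j hj
    obtain ⟨z, hz⟩ := hM (b j : Qb) (b j).2 hj
    refine ⟨z, ?_⟩
    rw [map_mul, mul_pow, map_pow, ← pow_mul, mul_comm j e, pow_mul, hπ, hz, zpow_add₀ hvp0,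
      zpow_natCast, mul_comm (e : ℤ) z, zpow_mul, zpow_natCast]
  set s := (Finset.range e).filter (fun j => (b j : Qb) ≠ 0) with hs
  have hsum : x = ∑ j ∈ s, (b j : Qb) * π ^ j := by
    rw [hb, hs, Finset.sum_filter]
    refine Finset.sum_congr rfl fun j _ => ?_
    split_ifs with h
    · rfl
    · rw [not_not.mp h, zero_mul]
  have hdist : ∀ i ∈ s, ∀ j ∈ s, i ≠ j → w ((b i : Qb) * π ^ i) ≠ w ((b j : Qb) * π ^ j) := by
    intro i hi j hj hij h
    rw [hs, Finset.mem_filter, Finset.mem_range] at hi hj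
    obtain ⟨z1, h1⟩ := hval i hi.2
    obtain ⟨z2, h2⟩ := hval j hj.2
    rw [h, h2] at h1
    have h3 := zpow_inj hvp0 hV h1
    have h4 : (e : ℤ) ∣ (i : ℤ) - j := ⟨z2 - z1, by linarith⟩
    have h5 : |(i : ℤ) - j| < e := by
      rw [abs_lt]
      constructor
      · have := hj.1; omega
      · have := hi.1; omega
    have h6 := Int.eq_zero_of_abs_lt_dvd h4 h5
    omega
  have hterm : ∀ j ∈ s, w ((b j : Qb) * π ^ j) ≤ 1 := by
    intro j hj
    refine (val_sum w s _ hdist j hj).trans ?_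
    rw [← hsum]
    exact hx1
  have hterm2 : ∀ j ∈ s, 0 < j → w ((b j : Qb) * π ^ j) ^ e ≤ w (p : Qb) := by
    intro j hj hj0
    have h1 : w ((b j : Qb) * π ^ j) ^ e ≤ 1 := pow_le_one' (hterm j hj) e
    rw [hs, Finset.mem_filter, Finset.mem_range] at hj
    obtain ⟨z, hz⟩ := hval j hj.2
    rw [hz] at h1 ⊢
    have h2 : 0 ≤ (e : ℤ) * z + j := by
      by_contra hcon
      have h3 := zpow_lt_of_lt hvp0 hV (not_le.mp hcon)
      rw [zpow_zero] at h3
      exact absurd h1 (not_le.mpr h3)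
    have h3 : 0 ≤ z := by
      by_contra hcon
      have h4 : z ≤ -1 := by omega
      have h5 : (e : ℤ) * z ≤ -e := by nlinarith
      have h6 := hj.1
      omega
    have h4 : (1 : ℤ) ≤ e * z + j := by
      have : 0 ≤ (e : ℤ) * z := by positivity
      omega
    calc w (p : Qb) ^ (e * z + j : ℤ) ≤ w (p : Qb) ^ (1 : ℤ) := by
          rcases eq_or_lt_of_le h4 with h5 | h5
          · rw [← h5]
          · exact (zpow_lt_of_lt hvp0 hV h5).le
      _ = _ := zpow_one _
  -- the difference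
  have hdiff : x - σ x = ∑ j ∈ s, (b j : Qb) * (π ^ j - (σ π) ^ j) := by
    rw [hsum, map_sum, ← Finset.sum_sub_distrib]
    refine Finset.sum_congr rfl fun j _ => ?_
    rw [map_mul, map_pow, hσ _ (b j).2]
    ring
  by_cases hD : x - σ x = 0
  · rw [hD, map_zero, zero_pow he.ne']
    exact zero_le
  · have hne : s.Nonempty := by
      rw [Finset.nonempty_iff_ne_empty]
      intro h
      rw [h, Finset.sum_empty] at hdiff
      exact hD hdiff
    obtain ⟨j, hj, hmax⟩ := s.exists_max_image (fun j => w ((b j : Qb) * (π ^ j - (σ π) ^ j))) hne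
    have h1 : w (x - σ x) ≤ w ((b j : Qb) * (π ^ j - (σ π) ^ j)) := by
      rw [hdiff]
      exact Valuation.map_sum_le _ fun i hi => hmax i hi
    rcases Nat.eq_zero_or_pos j with h2 | h2
    · rw [h2, pow_zero, pow_zero, sub_self, mul_zero, map_zero] at h1
      have h3 : w (x - σ x) = 0 := le_antisymm h1 zero_le
      exact absurd ((Valuation.zero_iff w).mp h3) hD
    · have h3 : w ((b j : Qb) * (π ^ j - (σ π) ^ j)) ≤ w ((b j : Qb) * π ^ j) := by
        rw [map_mul, map_mul]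
        apply mul_le_mul_right
        refine (Valuation.map_sub _ _ _).trans ?_
        rw [map_pow, map_pow, hσπ, max_self]
      exact (pow_le_pow_left₀ zero_le (h1.trans h3) e).trans (hterm2 j hj h2)

/-- the lower bound for the height of a new element -/
theorem new_height (M : IntermediateField ℚ Qb) (π : Qb) (e : ℕ)
    (hdeg : (minpoly ℚ π).natDegree ≤ e) (p : ℕ) (hp : p.Prime)
    (hM : ∀ V : ValuationSubring Qb, V.valuation (p : Qb) < 1 →
      ∀ y ∈ M, y ≠ 0 → ∃ z : ℤ, V.valuation y = V.valuation (p : Qb) ^ z)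
    (hπ : ∀ V : ValuationSubring Qb, V.valuation (p : Qb) < 1 →
      V.valuation π ^ e = V.valuation (p : Qb))
    (hσπ : ∀ V : ValuationSubring Qb, V.valuation (p : Qb) < 1 →
      ∀ σ : Qb ≃ₐ[ℚ] Qb, V.valuation (σ π) = V.valuation π)
    (x : Qb) (hx : x ∈ M ⊔ IntermediateField.adjoin ℚ {π}) (hxM : x ∉ M) :
    (Real.log p / e - Real.log 2) / 2 ≤ ht x := by
  have he : 0 < e := lt_of_lt_of_le (minpoly.natDegree_pos (qb_isIntegral π)) hdeg
  -- an automorphism which moves `x`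
  obtain ⟨σ, hσ, hσx⟩ : ∃ σ : Qb ≃ₐ[ℚ] Qb, (∀ y ∈ M, σ y = y) ∧ x ≠ σ x := by
    have hcl : IsAlgClosure M Qb := ⟨inferInstance, inferInstance⟩
    have hN : Normal M Qb := IsAlgClosure.normal M Qb
    have hG : IsGalois M Qb := ⟨⟩
    by_contra hcon
    push Not at hcon
    apply hxM
    have h1 : x ∈ Set.range (algebraMap M Qb) := by
      rw [InfiniteGalois.mem_range_algebraMap_iff_fixed]
      intro τ
      exact (hcon (τ.restrictScalars ℚ) (fun y hy => τ.commutes ⟨y, hy⟩)).symm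
    obtain ⟨y, rfl⟩ := h1
    exact y.2
  have hx0 : x ≠ 0 := by
    rintro rfl
    exact hxM M.zero_mem
  refine ht_ram p hp e he x (σ x) (ht_conj σ x) hσx fun V hV => ?_
  set w := V.valuation with hw
  rcases le_or_gt (w x) 1 with h1 | h1
  · have h2 := close M π e hdeg V p hp hV (hM V hV) (hπ V hV) σ hσ (hσπ V hV σ) x hx h1
    refine h2.trans ?_
    have h3 : (1 : _) ≤ max 1 (w x) ^ e * max 1 (w (σ x)) ^ e :=
      one_le_mul (one_le_pow₀ (le_max_left _ _)) (one_le_pow₀ (le_max_left _ _))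
    calc w (p : Qb) = w (p : Qb) * 1 := (mul_one _).symm
      _ ≤ _ := mul_le_mul_right h3 _
  · have hxi : V.valuation x⁻¹ ≤ 1 := by
      rw [map_inv₀]
      exact inv_le_one_of_one_le₀ h1.le
    have h2 := close M π e hdeg V p hp hV (hM V hV) (hπ V hV) σ hσ (hσπ V hV σ) x⁻¹
      (inv_mem hx) hxi
    have hσ0 : σ x ≠ 0 := (map_ne_zero σ).mpr hx0
    have h3 : x - σ x = -(x * σ x * (x⁻¹ - σ x⁻¹)) := by
      rw [map_inv₀]
      field_simp
      ring
    rw [h3, Valuation.map_neg, map_mul, map_mul, mul_pow, mul_pow]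
    have h4 : w x ^ e ≤ max 1 (w x) ^ e := pow_le_pow_left₀ zero_le (le_max_right _ _) e
    have h5 : w (σ x) ^ e ≤ max 1 (w (σ x)) ^ e := pow_le_pow_left₀ zero_le (le_max_right _ _) e
    calc w x ^ e * w (σ x) ^ e * w (x⁻¹ - σ x⁻¹) ^ e
        ≤ (max 1 (w x) ^ e * max 1 (w (σ x)) ^ e) * w (p : Qb) :=
          mul_le_mul' (mul_le_mul' h4 h5) h2
      _ = _ := mul_comm _ _

end Run7.h332
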