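import Mathlib
import Pool.Agent.H58R.Lev

set_option autoImplicit false

/-!
# Values of the elements of a field generated by roots of unity of order prime to `p`
-/

namespace Run7.h332

open Pool.Agent.H58P (Qb ht qb_isIntegral exists_den)

section
variable (V : ValuationSubring Qb) (p : ℕ)

lemma val_int_le (x : Qb) (hx : IsIntegral ℤ x) : V.valuation x ≤ 1 := by
  rw [ValuationSubring.valuation_le_one_iff]
  have h1 : IsIntegral V x := hx.tower_top
  obtain ⟨y, hy⟩ := IsIntegrallyClosed.isIntegral_iff.mp h1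
  rw [← hy]
  exact y.2

lemma val_natCast_le (n : ℕ) : V.valuation (n : Qb) ≤ 1 := by
  rw [ValuationSubring.valuation_le_one_iff]
  exact natCast_mem V n

lemma val_intCast_le (n : ℤ) : V.valuation (n : Qb) ≤ 1 := by
  rw [ValuationSubring.valuation_le_one_iff]
  exact intCast_mem V n

variable {V p} (hp : p.Prime) (hV : V.valuation (p : Qb) < 1)

include hp hV in
lemma val_unit (d : ℕ) (hd : ¬ p ∣ d) : V.valuation (d : Qb) = 1 := by
  refine le_antisymm (val_natCast_le V d) ?_
  by_contra hcon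
  have hcop : IsCoprime (p : ℤ) (d : ℤ) :=
    Nat.isCoprime_iff_coprime.mpr ((Nat.Prime.coprime_iff_not_dvd hp).mpr hd)
  obtain ⟨x, y, hxy⟩ := hcop
  have e : (1 : Qb) = (x : Qb) * p + (y : Qb) * d := by
    have := congrArg (fun z : ℤ => (z : Qb)) hxy
    push_cast at this
    rw [← this]
  have h5 : V.valuation (1 : Qb) < 1 := by
    rw [e]
    apply Valuation.map_add_lt
    · rw [map_mul]
      exact mul_lt_one_of_nonneg_of_lt_one_right (val_intCast_le V x) zero_le hV
    · rw [map_mul]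
      exact mul_lt_one_of_nonneg_of_lt_one_right (val_intCast_le V y) zero_le (not_le.mp hcon)
  rw [map_one] at h5
  exact lt_irrefl _ h5

include hp hV in
lemma val_nat (d : ℕ) (hd : d ≠ 0) : ∃ t : ℕ, V.valuation (d : Qb) = V.valuation (p : Qb) ^ t := by
  obtain ⟨t, d', h1, h2⟩ := Nat.exists_eq_pow_mul_and_not_dvd hd p hp.ne_one
  refine ⟨t, ?_⟩
  rw [h2]
  push_cast
  rw [map_mul, map_pow, val_unit hp hV d' h1, mul_one]

end

/-- a congruence of Frobenius type -/
lemma frob_adjoin (T : Set Qb) {p : ℕ} (hp : p.Prime) (f : ℕ) (hT : ∀ t ∈ T, t ^ p ^ f = t)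
    (a : Qb) (ha : a ∈ Algebra.adjoin ℤ T) :
    ∃ r ∈ Algebra.adjoin ℤ T, a ^ p ^ f = a + p * r := by
  induction ha using Algebra.adjoin_induction with
  | mem x hx =>
    exact ⟨0, zero_mem _, by rw [hT x hx]; ring⟩
  | algebraMap n =>
    have hp' : Fact p.Prime := ⟨hp⟩
    have h1 : ((n ^ p ^ f - n : ℤ) : ZMod p) = 0 := by
      push_cast
      rw [ZMod.pow_card_pow, sub_self]
    obtain ⟨k, hk⟩ := (ZMod.intCast_zmod_eq_zero_iff_dvd _ _).mp h1
    refine ⟨algebraMap ℤ Qb k, Subalgebra.algebraMap_mem _ _, ?_⟩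
    have h2 : (n : ℤ) ^ p ^ f = n + p * k := by linarith
    have h3 := congrArg (fun z : ℤ => (z : Qb)) h2
    simpa using h3
  | add x y hx hy ihx ihy =>
    obtain ⟨r, hr, hr'⟩ := ihx
    obtain ⟨s, hs, hs'⟩ := ihy
    obtain ⟨u, hu⟩ := exists_add_pow_prime_pow_eq hp (⟨x, hx⟩ : Algebra.adjoin ℤ T)
      (⟨y, hy⟩ : Algebra.adjoin ℤ T) f
    have hu' := congrArg (fun z : Algebra.adjoin ℤ T => (z : Qb)) hu
    push_cast at hu'
    refine ⟨r + s + x * y * u, add_mem (add_mem hr hs) (mul_mem (mul_mem hx hy) u.2), ?_⟩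
    rw [hu', hr', hs']
    ring
  | mul x y hx hy ihx ihy =>
    obtain ⟨r, hr, hr'⟩ := ihx
    obtain ⟨s, hs, hs'⟩ := ihy
    refine ⟨x * s + r * y + p * (r * s), add_mem (add_mem (mul_mem hx hs) (mul_mem hr hy))
      (mul_mem (natCast_mem _ p) (mul_mem hr hs)), ?_⟩
    rw [mul_pow, hr', hs']
    ring

lemma adjoin_integral (T : Set Qb) (N : ℕ) (hN : 0 < N) (hT : ∀ t ∈ T, t ^ N = 1)
    (a : Qb) (ha : a ∈ Algebra.adjoin ℤ T) : IsIntegral ℤ a := by
  have h1 : Algebra.adjoin ℤ T ≤ integralClosure ℤ Qb := by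
    rw [Algebra.adjoin_le_iff]
    intro t ht'
    have h2 : IsIntegral ℤ (t ^ N) := by rw [hT t ht']; exact isIntegral_one
    exact IsIntegral.of_pow hN h2
  exact h1 ha

lemma val_adjoin_int (V : ValuationSubring Qb) {p : ℕ} (hp : p.Prime)
    (hV : V.valuation (p : Qb) < 1) (T : Set Qb) (N : ℕ) (hN : 0 < N) (hpN : p.Coprime N)
    (hT : ∀ t ∈ T, t ^ N = 1) (a : Qb) (ha : a ∈ Algebra.adjoin ℤ T) (ha0 : a ≠ 0) :
    ∃ n : ℕ, V.valuation a = V.valuation (p : Qb) ^ n := by
  set f := N.totient with hf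
  have hfpos : 0 < f := Nat.totient_pos.mpr hN
  have hT' : ∀ t ∈ T, t ^ p ^ f = t := by
    intro t ht'
    have h1 : p ^ f ≡ 1 [MOD N] := Nat.ModEq.pow_totient hpN
    have h2 : t ^ (p ^ f) = t ^ ((p ^ f) % N) := by
      conv_lhs => rw [← Nat.div_add_mod (p ^ f) N, pow_add, pow_mul, hT t ht', one_pow, one_mul]
    rw [h2, h1, ← Nat.div_add_mod 1 N]
    have h3 : t ^ (1 % N) = t := by
      have h4 : t = t ^ (N * (1 / N) + 1 % N) := by
        rw [Nat.div_add_mod 1 N, pow_one]
      conv_rhs => rw [h4, pow_add, pow_mul, hT t ht', one_pow, one_mul]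
    rw [Nat.div_add_mod 1 N]
    exact h3
  have hP : 1 < p ^ f := Nat.one_lt_pow hfpos.ne' hp.one_lt
  have hp0 : (p : Qb) ≠ 0 := by exact_mod_cast hp.ne_zero
  have hvp0 : V.valuation (p : Qb) ≠ 0 := (Valuation.ne_zero_iff _).mpr hp0
  have hva0 : V.valuation a ≠ 0 := (Valuation.ne_zero_iff _).mpr ha0
  obtain ⟨d, hd, hdint⟩ := exists_den a⁻¹
  obtain ⟨t, ht'⟩ := val_nat hp hV d hd.ne'
  have hle : ∀ x ∈ Algebra.adjoin ℤ T, V.valuation x ≤ 1 := fun x hx =>
    val_int_le V x (adjoin_integral T N hN hT x hx)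
  have claim : ∀ n : ℕ, (∃ j : ℕ, V.valuation a = V.valuation (p : Qb) ^ j) ∨
      ∃ r ∈ Algebra.adjoin ℤ T, V.valuation a = V.valuation (p : Qb) ^ n * V.valuation r := by
    intro n
    induction n with
    | zero => exact Or.inr ⟨a, ha, by rw [pow_zero, one_mul]⟩
    | succ n ih =>
      rcases ih with h | ⟨r, hr, h⟩
      · exact Or.inl h
      · rcases lt_or_eq_of_le (hle r hr) with h1 | h1
        · right
          obtain ⟨s, hs, hs'⟩ := frob_adjoin T hp f hT' r hr
          refine ⟨s, hs, ?_⟩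
          have hr0 : V.valuation r ≠ 0 := by
            intro h2
            rw [h2, mul_zero] at h
            exact hva0 h
          have h2 : V.valuation (r ^ p ^ f) < V.valuation r := by
            rw [map_pow]
            obtain ⟨k, hk⟩ : ∃ k, p ^ f = k + 1 + 1 := ⟨p ^ f - 2, by omega⟩
            rw [hk, pow_succ]
            calc V.valuation r ^ (k + 1) * V.valuation r < 1 * V.valuation r := by
                  apply mul_lt_mul_of_pos_right _ (zero_lt_iff.mpr hr0)
                  exact pow_lt_one' h1 (by omega)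
              _ = _ := one_mul _
          have h3 : (p : Qb) * s = r ^ p ^ f - r := by rw [hs']; ring
          have h4 : V.valuation ((p : Qb) * s) = V.valuation r := by
            rw [h3]
            exact Valuation.map_sub_eq_of_lt_right _ h2
          rw [h, ← h4, map_mul, pow_succ, mul_assoc]
        · left
          exact ⟨n, by rw [h, h1, mul_one]⟩
  rcases claim (t + 1) with h | ⟨r, hr, h⟩
  · exact h
  · exfalso
    have h1 : V.valuation a ≤ V.valuation (p : Qb) ^ (t + 1) := by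
      rw [h]
      calc V.valuation (p : Qb) ^ (t + 1) * V.valuation r ≤ V.valuation (p : Qb) ^ (t + 1) * 1 :=
            mul_le_mul_right (hle r hr) _
        _ = _ := mul_one _
    have h2 : V.valuation (d : Qb) ≤ V.valuation (p : Qb) ^ (t + 1) := by
      have e : (d : Qb) = a * (d * a⁻¹) := by field_simp
      rw [e, map_mul]
      calc V.valuation a * V.valuation (d * a⁻¹) ≤ V.valuation a * 1 :=
            mul_le_mul_right (val_int_le V _ hdint) _
        _ = V.valuation a := mul_one _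
        _ ≤ _ := h1
    rw [ht'] at h2
    have h3 : V.valuation (p : Qb) ^ (t + 1) < V.valuation (p : Qb) ^ t := by
      rw [pow_succ]
      calc V.valuation (p : Qb) ^ t * V.valuation (p : Qb) < V.valuation (p : Qb) ^ t * 1 :=
            mul_lt_mul_of_pos_left hV (zero_lt_iff.mpr (pow_ne_zero _ hvp0))
        _ = _ := mul_one _
    exact absurd h2 (not_le.mpr h3)

lemma exists_int_multiple (T : Set Qb) (a : Qb) (ha : a ∈ Algebra.adjoin ℚ T) :
    ∃ d : ℕ, d ≠ 0 ∧ (d : Qb) * a ∈ Algebra.adjoin ℤ T := by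
  induction ha using Algebra.adjoin_induction with
  | mem x hx => exact ⟨1, one_ne_zero, by rw [Nat.cast_one, one_mul]; exact Algebra.subset_adjoin hx⟩
  | algebraMap q =>
    refine ⟨q.den, q.den_ne_zero, ?_⟩
    have h1 : (q.den : Qb) * algebraMap ℚ Qb q = algebraMap ℤ Qb q.num := by
      have h2 : (q.den : ℚ) * q = q.num := Rat.den_mul_eq_num q
      have h3 := congrArg (algebraMap ℚ Qb) h2
      rw [map_mul] at h3
      simpa using h3
    rw [h1]
    exact Subalgebra.algebraMap_mem _ _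
  | add x y hx hy ihx ihy =>
    obtain ⟨d, hd, h1⟩ := ihx
    obtain ⟨e, he, h2⟩ := ihy
    refine ⟨d * e, mul_ne_zero hd he, ?_⟩
    have : ((d * e : ℕ) : Qb) * (x + y) = e * (d * x) + d * (e * y) := by push_cast; ring
    rw [this]
    exact add_mem (mul_mem (natCast_mem _ e) h1) (mul_mem (natCast_mem _ d) h2)
  | mul x y hx hy ihx ihy =>
    obtain ⟨d, hd, h1⟩ := ihx
    obtain ⟨e, he, h2⟩ := ihy
    refine ⟨d * e, mul_ne_zero hd he, ?_⟩
    have : ((d * e : ℕ) : Qb) * (x * y) = (d * x) * (e * y) := by push_cast; ring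
    rw [this]
    exact mul_mem h1 h2

/-- the values of the elements of a field generated by roots of unity of order prime to `p` -/
theorem val_adjoin (V : ValuationSubring Qb) {p : ℕ} (hp : p.Prime)
    (hV : V.valuation (p : Qb) < 1) (T : Set Qb) (N : ℕ) (hN : 0 < N) (hpN : p.Coprime N)
    (hT : ∀ t ∈ T, t ^ N = 1) (y : Qb) (hy : y ∈ IntermediateField.adjoin ℚ T) (hy0 : y ≠ 0) :
    ∃ z : ℤ, V.valuation y = V.valuation (p : Qb) ^ z := by
  have hp0 : (p : Qb) ≠ 0 := by exact_mod_cast hp.ne_zero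
  have hvp0 : V.valuation (p : Qb) ≠ 0 := (Valuation.ne_zero_iff _).mpr hp0
  have key : ∀ r ∈ Algebra.adjoin ℚ T, r ≠ 0 →
      ∃ z : ℤ, V.valuation r = V.valuation (p : Qb) ^ z := by
    intro r hr hr0
    obtain ⟨d, hd, h1⟩ := exists_int_multiple T r hr
    have hd0 : (d : Qb) ≠ 0 := by exact_mod_cast hd
    obtain ⟨n, hn⟩ := val_adjoin_int V hp hV T N hN hpN hT _ h1 (mul_ne_zero hd0 hr0)
    obtain ⟨t, ht'⟩ := val_nat hp hV d hd
    refine ⟨(n : ℤ) - t, ?_⟩
    rw [map_mul, ht'] at hn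
    rw [zpow_sub₀ hvp0, zpow_natCast, zpow_natCast, ← hn, mul_div_assoc, mul_comm,
      div_mul_cancel₀]
    exact pow_ne_zero _ hvp0
  obtain ⟨r, hr, s, hs, rfl⟩ := IntermediateField.mem_adjoin_iff_div.mp hy
  have hr0 : r ≠ 0 := by
    rintro rfl
    rw [zero_div] at hy0
    exact hy0 rfl
  have hs0 : s ≠ 0 := by
    rintro rfl
    rw [div_zero] at hy0
    exact hy0 rfl
  obtain ⟨z1, h1⟩ := key r hr hr0
  obtain ⟨z2, h2⟩ := key s hs hs0
  exact ⟨z1 - z2, by rw [map_div₀, h1, h2, zpow_sub₀ hvp0]⟩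

end Run7.h332
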