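import Mathlib
import Pool.Agent.Run7.h332.Per
import Pool.Agent.Run7.h332.Unr
import Pool.Agent.Run7.h332.Ram
import Pool.Agent.Run7.h332.Prm

set_option autoImplicit false

/-!
# The field
-/

namespace Run7.h332

open Polynomial Module
open Pool.Agent.H58P (Qb ht qb_isIntegral)
open Pool.Agent.H58W (northcott)

instance instClosure : IsAlgClosure ℚ Qb :=
  ⟨inferInstance, ⟨fun x => (qb_isIntegral x).isAlgebraic⟩⟩

instance instNormal : Normal ℚ Qb := IsAlgClosure.normal ℚ Qb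

section
variable {p : ℕ} [hp : Fact p.Prime] (m : ℕ) {ζ : Qb} (hζ : IsPrimitiveRoot ζ p)

include hζ in
/-- the action of the automorphisms -/
lemma exists_c (τ : Qb ≃ₐ[ℚ] Qb) :
    ∃ c : (ZMod p)ˣ, ∀ a : (ZMod p)ˣ, τ (per m ζ a) = per m ζ (c * a) := by
  have h1 : IsPrimitiveRoot (τ ζ) p := hζ.map_of_injective (f := τ) τ.injective
  have : NeZero p := ⟨hp.out.ne_zero⟩
  obtain ⟨i, hi, hco, hi'⟩ := hζ.isPrimitiveRoot_iff.mp h1
  refine ⟨ZMod.unitOfCoprime i hco, fun a => ?_⟩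
  rw [← per_pow m ζ hζ.pow_eq_one, ZMod.coe_unitOfCoprime, ZMod.val_natCast_of_lt hi, hi']
  exact map_per m (τ : Qb →+* Qb) ζ a

include hζ in
lemma natDegree_per_le (e : ℕ) (he : e * m = p - 1) :
    (minpoly ℚ (per m ζ (1 : (ZMod p)ˣ))).natDegree ≤ e := by
  classical
  set π := per m ζ (1 : (ZMod p)ˣ) with hπ
  set h : (ZMod p)ˣ → Qb := Function.extend (fun a : (ZMod p)ˣ => a ^ m)
    (fun a : (ZMod p)ˣ => per m ζ a) 0 with hh
  have hext : ∀ a : (ZMod p)ˣ, h (a ^ m) = per m ζ a := by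
    intro a
    have hf : Function.FactorsThrough (fun a : (ZMod p)ˣ => per m ζ a)
      (fun a : (ZMod p)ˣ => a ^ m) := fun a b hab => per_congr m ζ a b hab
    exact hf.extend_apply 0 a
  set P : Finset (ZMod p)ˣ := Finset.univ.filter (fun b : (ZMod p)ˣ => b ^ e = 1) with hP
  have hPc : P.card = e := card_filter e ⟨m, he.symm⟩
  have hsub : (minpoly ℚ π).rootSet Qb ⊆ ((P.image h : Finset Qb) : Set Qb) := by
    intro r hr
    have h1 : aeval r (minpoly ℚ π) = 0 := aeval_eq_zero_of_mem_rootSet hr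
    have h2 : minpoly ℚ r = minpoly ℚ π :=
      (minpoly.eq_of_irreducible_of_monic (minpoly.irreducible (qb_isIntegral π)) h1
        (minpoly.monic (qb_isIntegral π))).symm
    obtain ⟨σ, hσ⟩ := (Normal.minpoly_eq_iff_mem_orbit Qb).mp h2
    obtain ⟨c, hc⟩ := exists_c m hζ σ
    have h3 : σ π = r := hσ
    rw [Finset.coe_image]
    refine ⟨c ^ m, ?_, ?_⟩
    · rw [Finset.mem_coe, hP, Finset.mem_filter]
      refine ⟨Finset.mem_univ _, ?_⟩
      rw [← pow_mul, mul_comm, he]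
      exact ZMod.units_pow_card_sub_one_eq_one p c
    · rw [hext, ← h3, hπ, hc 1, mul_one]
  have hsep : (minpoly ℚ π).Separable := (minpoly.irreducible (qb_isIntegral π)).separable
  have hcard := card_rootSet_eq_natDegree (K := Qb) hsep (IsAlgClosed.splits _)
  rw [← hcard, ← Set.toFinset_card]
  calc ((minpoly ℚ π).rootSet Qb).toFinset.card ≤ (P.image h).card := by
        apply Finset.card_le_card
        intro r hr
        exact Finset.mem_coe.mp (hsub (Set.mem_toFinset.mp hr))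
    _ ≤ P.card := Finset.card_image_le
    _ = e := hPc

include hζ in
/-- the conjugates are in the field generated by the number -/
lemma conj_mem (hm : m ∣ p - 1) (a : (ZMod p)ˣ) :
    per m ζ a ∈ IntermediateField.adjoin ℚ {per m ζ (1 : (ZMod p)ˣ)} := by
  set π := per m ζ (1 : (ZMod p)ˣ) with hπ
  set E := IntermediateField.adjoin ℚ {π} with hE
  have hcl : IsAlgClosure E Qb := ⟨inferInstance,
    ⟨fun x => ((qb_isIntegral x).tower_top (A := E)).isAlgebraic⟩⟩
  have hN : Normal E Qb := IsAlgClosure.normal E Qb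
  have hG : IsGalois E Qb := ⟨⟩
  have h1 : per m ζ a ∈ Set.range (algebraMap E Qb) := by
    rw [InfiniteGalois.mem_range_algebraMap_iff_fixed]
    intro τ
    have hτ : τ π = π := τ.commutes ⟨π, IntermediateField.mem_adjoin_simple_self ℚ π⟩
    obtain ⟨c, hc⟩ := exists_c m hζ (τ.restrictScalars ℚ)
    have h2 : per m ζ (c * 1) = per m ζ (1 : (ZMod p)ˣ) := by
      rw [← hc 1]
      exact hτ
    have h3 := per_inj m hζ hm _ _ h2
    rw [mul_one, one_pow] at h3
    have h4 : τ (per m ζ a) = per m ζ (c * a) := hc a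
    rw [h4]
    apply per_congr
    rw [mul_pow, h3, one_mul]
  obtain ⟨y, hy⟩ := h1
  rw [← hy]
  exact y.2

lemma per_mem_adjoin (ζ : Qb) (a : (ZMod p)ˣ) : per m ζ a ∈ IntermediateField.adjoin ℚ {ζ} := by
  unfold per
  refine prod_mem fun b _ => sub_mem (one_mem _) (pow_mem ?_ _)
  exact IntermediateField.mem_adjoin_simple_self ℚ ζ

end

/-- the data -/
structure Dat where
  p : ℕ → ℕ
  m : ℕ → ℕ
  hp : ∀ n, (p n).Prime
  mono : StrictMono p
  hm : ∀ n, 2 ^ (n + 2) * m n = p n - 1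
  hlog : ∀ n : ℕ, (n : ℝ) * 2 ^ (n + 2) ≤ Real.log (p n)
  hq : ∀ n q : ℕ, q.Prime → q ≠ 2 → q ≤ n → (q : ZMod (p n)) ^ (2 ^ (n + 1) * m n) = -1
  ζ : ℕ → Qb
  hζ : ∀ n, IsPrimitiveRoot (ζ n) (p n)

lemma nonempty_dat : Nonempty Dat := by
  obtain ⟨p, m, h1, h2, h3, h4, h5⟩ := exists_seq
  choose ζ hζ using fun n => Pool.Agent.H58R.exists_prim (p n) (h1 n).pos
  exact ⟨⟨p, m, h1, h2, h3, h4, h5, ζ, hζ⟩⟩

namespace Dat
variable (D : Dat)

instance instFact (n : ℕ) : Fact (D.p n).Prime := ⟨D.hp n⟩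

/-- the generators -/
noncomputable def gen (n : ℕ) : Qb := per (D.m n) (D.ζ n) (1 : (ZMod (D.p n))ˣ)

/-- the layers -/
noncomputable def K (n : ℕ) : IntermediateField ℚ Qb :=
  IntermediateField.adjoin ℚ (D.gen '' Set.Iio n)

/-- the field -/
noncomputable def F : IntermediateField ℚ Qb := IntermediateField.adjoin ℚ (Set.range D.gen)

lemma K_succ (n : ℕ) : D.K (n + 1) = D.K n ⊔ IntermediateField.adjoin ℚ {D.gen n} := by
  unfold K
  rw [← IntermediateField.adjoin_union]
  congr 1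
  ext x
  simp only [Set.mem_image, Set.mem_Iio, Set.union_singleton, Set.mem_insert_iff]
  constructor
  · rintro ⟨j, hj, rfl⟩
    rcases Nat.lt_succ_iff_lt_or_eq.mp hj with h | h
    · exact Or.inr ⟨j, h, rfl⟩
    · exact Or.inl (by rw [h])
  · rintro (rfl | ⟨j, hj, rfl⟩)
    · exact ⟨n, Nat.lt_succ_self n, rfl⟩
    · exact ⟨j, Nat.lt_succ_of_lt hj, rfl⟩

lemma K_mono : Monotone D.K := monotone_nat_of_le_succ fun n => by
  rw [K_succ]; exact le_sup_left

instance K_fd (n : ℕ) : FiniteDimensional ℚ (D.K n) := by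
  have : Finite (D.gen '' Set.Iio n) := ((Set.finite_Iio n).image _)
  exact IntermediateField.finiteDimensional_adjoin fun y _ => qb_isIntegral y

lemma mem_F (x : Qb) : x ∈ D.F ↔ ∃ n, x ∈ D.K n := by
  have h1 : D.F = ⨆ n, D.K n := by
    apply le_antisymm
    · unfold F
      rw [IntermediateField.adjoin_le_iff]
      rintro _ ⟨n, rfl⟩
      have h2 : D.gen n ∈ D.K (n + 1) :=
        IntermediateField.subset_adjoin ℚ _ ⟨n, Nat.lt_succ_self n, rfl⟩
      exact (le_iSup D.K (n + 1)) h2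
    · apply iSup_le
      intro n
      unfold K F
      apply IntermediateField.adjoin.mono
      exact Set.image_subset_range _ _
  rw [h1, ← SetLike.mem_coe, IntermediateField.coe_iSup_of_directed D.K_mono.directed_le,
    Set.mem_iUnion]
  rfl

lemma m_dvd (n : ℕ) : D.m n ∣ D.p n - 1 := ⟨2 ^ (n + 2), by rw [← D.hm n, mul_comm]⟩

lemma map_gen_mem (n : ℕ) (σ : Qb ≃ₐ[ℚ] Qb) :
    σ (D.gen n) ∈ IntermediateField.adjoin ℚ {D.gen n} := by
  obtain ⟨c, hc⟩ := exists_c (D.m n) (D.hζ n) σ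
  have h1 : σ (D.gen n) = per (D.m n) (D.ζ n) (c * 1) := hc 1
  rw [h1]
  exact conj_mem (D.m n) (D.hζ n) (D.m_dvd n) _

lemma map_mem_F (σ : Qb ≃ₐ[ℚ] Qb) (x : Qb) (hx : x ∈ D.F) : σ x ∈ D.F := by
  have h0 : D.F.map (σ : Qb →ₐ[ℚ] Qb) ≤ D.F := by
    unfold F
    rw [IntermediateField.adjoin_map, IntermediateField.adjoin_le_iff]
    rintro _ ⟨_, ⟨n, rfl⟩, rfl⟩
    have h1 := D.map_gen_mem n σ
    have h2 : IntermediateField.adjoin ℚ {D.gen n} ≤
        IntermediateField.adjoin ℚ (Set.range D.gen) := by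
      apply IntermediateField.adjoin.mono
      rintro _ rfl
      exact ⟨n, rfl⟩
    exact h2 h1
  exact h0 ⟨x, hx, rfl⟩

/-- the field as an extension of the smallest field -/
noncomputable def FB : IntermediateField (⊥ : IntermediateField ℚ Qb) Qb :=
  IntermediateField.extendScalars (bot_le : ⊥ ≤ D.F)

lemma mem_FB (x : Qb) : x ∈ D.FB ↔ x ∈ D.F := Iff.rfl

instance FB_normal : Normal (⊥ : IntermediateField ℚ Qb) D.FB := by
  have hcl : IsAlgClosure (⊥ : IntermediateField ℚ Qb) Qb := ⟨inferInstance,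
    ⟨fun x => ((qb_isIntegral x).tower_top (A := (⊥ : IntermediateField ℚ Qb))).isAlgebraic⟩⟩
  have hN : Normal (⊥ : IntermediateField ℚ Qb) Qb :=
    IsAlgClosure.normal (⊥ : IntermediateField ℚ Qb) Qb
  rw [IntermediateField.normal_iff_forall_map_le']
  intro σ
  rintro _ ⟨x, hx, rfl⟩
  exact D.map_mem_F (σ.restrictScalars ℚ) x hx

instance FB_galois : IsGalois (⊥ : IntermediateField ℚ Qb) D.FB where
  to_isSeparable := by
    have hcl : Algebra.IsAlgebraic (⊥ : IntermediateField ℚ Qb) Qb :=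
      ⟨fun x => ((qb_isIntegral x).tower_top (A := (⊥ : IntermediateField ℚ Qb))).isAlgebraic⟩
    infer_instance

/-- the values of the elements of the layers -/
lemma val_K (n : ℕ) (V : ValuationSubring Qb) (hV : V.valuation (D.p n : Qb) < 1) (y : Qb)
    (hy : y ∈ D.K n) (hy0 : y ≠ 0) : ∃ z : ℤ, V.valuation y = V.valuation (D.p n : Qb) ^ z := by
  set N := ∏ j ∈ Finset.range n, D.p j with hN
  have hNpos : 0 < N := Finset.prod_pos fun j _ => (D.hp j).pos
  refine val_adjoin V (D.hp n) hV {t : Qb | t ^ N = 1} N hNpos ?_ (fun t h => h) y ?_ hy0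
  · apply Nat.Coprime.prod_right
    intro j hj
    rw [Finset.mem_range] at hj
    exact (Nat.coprime_primes (D.hp n) (D.hp j)).mpr (D.mono hj).ne'
  · have h1 : D.K n ≤ IntermediateField.adjoin ℚ {t : Qb | t ^ N = 1} := by
      unfold K
      rw [IntermediateField.adjoin_le_iff]
      rintro _ ⟨j, hj, rfl⟩
      have h2 : D.gen j ∈ IntermediateField.adjoin ℚ {D.ζ j} :=
        per_mem_adjoin (D.m j) (D.ζ j) 1
      have h3 : IntermediateField.adjoin ℚ {D.ζ j} ≤
          IntermediateField.adjoin ℚ {t : Qb | t ^ N = 1} := by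
        apply IntermediateField.adjoin.mono
        rintro _ rfl
        show D.ζ j ^ N = 1
        obtain ⟨k, hk⟩ := Finset.dvd_prod_of_mem D.p (Finset.mem_range.mpr hj)
        rw [hN, hk, pow_mul, (D.hζ j).pow_eq_one, one_pow]
      exact h3 h2
    exact h1 hy

/-- the heights of the new elements -/
lemma ht_new (n : ℕ) (x : Qb) (hx : x ∈ D.K (n + 1)) (hxn : x ∉ D.K n) :
    ((n : ℝ) - Real.log 2) / 2 ≤ ht x := by
  have h1 := new_height (D.K n) (D.gen n) (2 ^ (n + 2))
    (natDegree_per_le (D.m n) (D.hζ n) _ (D.hm n)) (D.p n) (D.hp n)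
    (fun V hV y hy hy0 => D.val_K n V hV y hy hy0)
    (fun V hV => val_per_pow (D.m n) V.valuation (D.hζ n) _ (D.hm n) 1)
    (fun V hV σ => by
      obtain ⟨c, hc⟩ := exists_c (D.m n) (D.hζ n) σ
      have h2 : σ (D.gen n) = per (D.m n) (D.ζ n) (c * 1) := hc 1
      have h3 : D.gen n = per (D.m n) (D.ζ n) 1 := rfl
      rw [h2, h3, val_per _ _ (D.hζ n) (D.m_dvd n), val_per _ _ (D.hζ n) (D.m_dvd n)])
    x (by rw [← K_succ]; exact hx) hxn
  refine le_trans ?_ h1
  have h2 := D.hlog n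
  have h3 : (n : ℝ) ≤ Real.log (D.p n) / ((2 ^ (n + 2) : ℕ) : ℝ) := by
    rw [le_div_iff₀ (by positivity)]
    push_cast
    exact h2
  linarith

/-- the Northcott property of the field -/
theorem northcott (B : ℝ) : {x : Qb | x ∈ D.F ∧ ht x ≤ B}.Finite := by
  obtain ⟨N, hN⟩ := exists_nat_gt (2 * B + Real.log 2)
  refine (Pool.Agent.H58W.northcott (finrank ℚ (D.K (N + 1))) B).subset ?_
  rintro x ⟨hx, hB⟩
  refine ⟨?_, hB⟩
  have hxK : x ∈ D.K (N + 1) := by
    classical
    have hex := (D.mem_F x).mp hx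
    rcases Nat.eq_zero_or_pos (Nat.find hex) with h | h
    · have h1 := Nat.find_spec hex
      rw [h] at h1
      exact D.K_mono (Nat.zero_le _) h1
    · obtain ⟨k, hk⟩ : ∃ k, Nat.find hex = k + 1 := ⟨Nat.find hex - 1, by omega⟩
      have h1 := Nat.find_spec hex
      rw [hk] at h1
      have h2 : x ∉ D.K k := Nat.find_min hex (by omega)
      have h3 := D.ht_new k x h1 h2
      have h4 : (k : ℝ) < N := by linarith
      have h5 : k < N := by exact_mod_cast h4
      exact D.K_mono (by omega) h1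
  have h2 : minpoly ℚ x = minpoly ℚ (⟨x, hxK⟩ : D.K (N + 1)) := by
    rw [← minpoly.algebraMap_eq (algebraMap (D.K (N + 1)) Qb).injective]
    rfl
  rw [h2]
  exact minpoly.natDegree_le _

end Dat

end Run7.h332
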