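import Mathlib

set_option autoImplicit false

/-!
# The Frobenius automorphism on roots of unity over a local field
-/

namespace Run7.h332

open Polynomial

section
variable {Ω : Type*} [Field Ω] (W : ValuationSubring Ω)

lemma w_natCast_le (n : ℕ) : W.valuation (n : Ω) ≤ 1 := by
  rw [ValuationSubring.valuation_le_one_iff]
  exact natCast_mem W n

lemma w_sum_pow {q : ℕ} (hq : q.Prime) (hWq : W.valuation (q : Ω) < 1) {ι : Type*} (s : Finset ι)
    (x : ι → Ω) (hx : ∀ i ∈ s, W.valuation (x i) ≤ 1) :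
    W.valuation ((∑ i ∈ s, x i) ^ q - ∑ i ∈ s, x i ^ q) < 1 := by
  classical
  induction s using Finset.induction_on with
  | empty => simp [hq.ne_zero]
  | insert a s ha ih =>
    rw [Finset.sum_insert ha, Finset.sum_insert ha]
    have hxa : x a ∈ W := (ValuationSubring.valuation_le_one_iff _ _).mp
      (hx a (Finset.mem_insert_self _ _))
    have hxs : ∑ i ∈ s, x i ∈ W := sum_mem fun i hi =>
      (ValuationSubring.valuation_le_one_iff _ _).mp (hx i (Finset.mem_insert_of_mem hi))
    obtain ⟨r, hr⟩ := exists_add_pow_prime_eq hq (⟨x a, hxa⟩ : W) (⟨∑ i ∈ s, x i, hxs⟩ : W)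
    have hr' := congrArg (fun z : W => (z : Ω)) hr
    push_cast at hr'
    have e : (x a + ∑ i ∈ s, x i) ^ q - (x a ^ q + ∑ i ∈ s, x i ^ q) =
        ((∑ i ∈ s, x i) ^ q - ∑ i ∈ s, x i ^ q) + q * (x a * (∑ i ∈ s, x i) * r) := by
      rw [hr']; ring
    rw [e]
    apply Valuation.map_add_lt
    · exact ih fun i hi => hx i (Finset.mem_insert_of_mem hi)
    · rw [map_mul]
      apply mul_lt_one_of_nonneg_of_lt_one_left zero_le hWq
      rw [ValuationSubring.valuation_le_one_iff]
      exact mul_mem (mul_mem hxa hxs) r.2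

lemma w_root (ξ : Ω) (n : ℕ) (hn : 0 < n) (h : ξ ^ n = 1) : W.valuation ξ = 1 := by
  have h1 : W.valuation ξ ^ n = 1 := by rw [← map_pow, h, map_one]
  exact (pow_eq_one_iff_of_nonneg zero_le hn.ne').mp h1

lemma w_one_sub {p : ℕ} (hp : p.Prime) (hWp : W.valuation (p : Ω) = 1) (η : Ω) (h : η ^ p = 1)
    (h1 : η ≠ 1) : W.valuation (1 - η) = 1 := by
  have hp' : Fact p.Prime := ⟨hp⟩
  have hprim : IsPrimitiveRoot η p := by
    have := IsPrimitiveRoot.orderOf η
    rwa [orderOf_eq_prime h h1] at this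
  obtain ⟨m, rfl⟩ : ∃ m, p = m + 1 := ⟨p - 1, by have := hp.pos; omega⟩
  have hle : ∀ k : ℕ, W.valuation (1 - η ^ k) ≤ 1 := by
    intro k
    refine (Valuation.map_sub _ _ _).trans ?_
    rw [map_one, map_pow, w_root W η _ hp.pos h, one_pow, max_self]
  have h2 := hprim.prod_one_sub_pow_eq_order
  have h3 : W.valuation (((m + 1 : ℕ)) : Ω) =
      ∏ k ∈ Finset.range m, W.valuation (1 - η ^ (k + 1)) := by
    rw [← map_prod, h2]
    push_cast
    rfl
  rw [hWp] at h3
  have hm : 0 < m := by have := hp.two_le; omega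
  obtain ⟨l, rfl⟩ : ∃ l, m = l + 1 := ⟨m - 1, by omega⟩
  rw [Finset.prod_range_succ'] at h3
  simp only [zero_add, pow_one] at h3
  have h4 : ∏ k ∈ Finset.range l, W.valuation (1 - η ^ (k + 1 + 1)) ≤ 1 :=
    Finset.prod_le_one' fun k _ => hle _
  have h5 := hle 1
  rw [pow_one] at h5
  refine le_antisymm h5 ?_
  rw [h3]
  calc _ ≤ 1 * W.valuation (1 - η) := mul_le_mul_left h4 _
    _ = _ := one_mul _

/-- the conjugate `ζ ^ q` -/
theorem frob_root {k : Type*} [Field k] [Algebra k Ω] [IsAlgClosed Ω] {p q : ℕ} (hp : p.Prime)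
    (hq : q.Prime) (hWp : W.valuation (p : Ω) = 1) (hWq : W.valuation (q : Ω) < 1)
    (ζ : Ω) (hζ : ζ ^ p = 1) (hint : IsIntegral k ζ)
    (h1 : ∀ i, W.valuation (algebraMap k Ω ((minpoly k ζ).coeff i)) ≤ 1)
    (h2 : ∀ i, W.valuation (algebraMap k Ω ((minpoly k ζ).coeff i) ^ q -
      algebraMap k Ω ((minpoly k ζ).coeff i)) < 1) :
    aeval (ζ ^ q) (minpoly k ζ) = 0 := by
  classical
  by_contra hne
  set g := minpoly k ζ with hg
  have hmon : g.Monic := minpoly.monic hint
  -- the value is one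
  have hval1 : W.valuation (aeval (ζ ^ q) g) = 1 := by
    have hsplit : (g.map (algebraMap k Ω)).Splits := IsAlgClosed.splits _
    have hprod : aeval (ζ ^ q) g = ((g.map (algebraMap k Ω)).roots.map (fun r => ζ ^ q - r)).prod := by
      rw [aeval_def, ← eval_map]
      conv_lhs => rw [hsplit.eq_prod_roots_of_monic (hmon.map _)]
      rw [eval_multiset_prod, Multiset.map_map]
      simp
    rw [hprod, map_multiset_prod, Multiset.map_map]
    apply Multiset.prod_eq_one
    intro x hx
    obtain ⟨r, hr, rfl⟩ := Multiset.mem_map.mp hx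
    have hgp : g ∣ X ^ p - 1 := minpoly.dvd k ζ (by rw [map_sub, map_pow, aeval_X, hζ]; simp)
    have hr0 : (g.map (algebraMap k Ω)).eval r = 0 := (mem_roots'.mp hr).2
    have hrp : r ^ p = 1 := by
      obtain ⟨h, hh⟩ := hgp
      have h3 := congrArg (fun f : k[X] => (f.map (algebraMap k Ω)).eval r) hh
      simp only [Polynomial.map_mul, eval_mul, hr0, zero_mul] at h3
      simp at h3
      exact sub_eq_zero.mp h3
    have hne' : ζ ^ q ≠ r := by
      intro h3
      apply hne
      rw [aeval_def, ← eval_map, h3]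
      exact hr0
    have hζ0 : ζ ≠ 0 := by
      rintro rfl
      rw [zero_pow hp.ne_zero] at hζ
      exact zero_ne_one hζ
    have hη : (r / ζ ^ q) ^ p = 1 := by
      rw [div_pow, hrp, ← pow_mul, mul_comm, pow_mul, hζ, one_pow, div_one]
    have hη1 : r / ζ ^ q ≠ 1 := by
      intro h3
      rw [div_eq_one_iff_eq (pow_ne_zero _ hζ0)] at h3
      exact hne' h3.symm
    show W.valuation (ζ ^ q - r) = 1
    have e : ζ ^ q - r = ζ ^ q * (1 - r / ζ ^ q) := by
      field_simp
    rw [e, map_mul, map_pow, w_root W ζ p hp.pos hζ, one_pow, one_mul]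
    exact w_one_sub W hp hWp _ hη hη1
  -- the value is less than one
  have hlt : W.valuation (aeval (ζ ^ q) g) < 1 := by
    have h0 : aeval ζ g = 0 := minpoly.aeval k ζ
    rw [aeval_eq_sum_range] at h0 ⊢
    simp only [Algebra.smul_def] at h0 ⊢
    set c : ℕ → Ω := fun i => algebraMap k Ω (g.coeff i) with hc
    have h3 := w_sum_pow W hq hWq (Finset.range (g.natDegree + 1)) (fun i => c i * ζ ^ i) (by
      intro i _
      rw [map_mul, map_pow, w_root W ζ p hp.pos hζ, one_pow, mul_one]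
      exact h1 i)
    have h0' : ∑ i ∈ Finset.range (g.natDegree + 1), c i * ζ ^ i = 0 := h0
    rw [h0', zero_pow hq.ne_zero, zero_sub, Valuation.map_neg] at h3
    have h4 : W.valuation (∑ i ∈ Finset.range (g.natDegree + 1), (c i ^ q - c i) * (ζ ^ q) ^ i) < 1 := by
      apply Valuation.map_sum_lt _ one_ne_zero
      intro i _
      rw [map_mul, map_pow, map_pow, w_root W ζ p hp.pos hζ, one_pow, one_pow, mul_one]
      exact h2 i
    have e : ∑ i ∈ Finset.range (g.natDegree + 1), c i * (ζ ^ q) ^ i =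
        ∑ i ∈ Finset.range (g.natDegree + 1), (c i * ζ ^ i) ^ q -
        ∑ i ∈ Finset.range (g.natDegree + 1), (c i ^ q - c i) * (ζ ^ q) ^ i := by
      rw [← Finset.sum_sub_distrib]
      refine Finset.sum_congr rfl fun i _ => ?_
      rw [mul_pow, ← pow_mul, ← pow_mul, mul_comm i q]
      ring
    show W.valuation (∑ i ∈ Finset.range (g.natDegree + 1), c i * (ζ ^ q) ^ i) < 1
    rw [e]
    exact Valuation.map_sub_lt _ h3 h4
  rw [hval1] at hlt
  exact lt_irrefl _ hlt

end

end Run7.h332
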