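import Mathlib
import Pool.Agent.Run7.h332.Frob

set_option autoImplicit false

/-!
# Local fields of the rational numbers
-/

namespace Run7.h332

open Polynomial NumberField IsDedekindDomain

section
variable {K : Type*} [Field K] [NumberField K]
  (v : HeightOneSpectrum (𝓞 K))

/-- the prime below -/
lemma exists_prime_mem : ∃ q : ℕ, q.Prime ∧ ((q : ℕ) : 𝓞 K) ∈ v.asIdeal := by
  have h1 : (Ideal.absNorm v.asIdeal : 𝓞 K) ∈ v.asIdeal := Ideal.absNorm_mem v.asIdeal
  have h0 : Ideal.absNorm v.asIdeal ≠ 0 := Ideal.absNorm_ne_zero_iff_mem_nonZeroDivisors.mpr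
    (mem_nonZeroDivisors_of_ne_zero v.ne_bot)
  have h2 : ∀ n : ℕ, n ≠ 0 → ((n : ℕ) : 𝓞 K) ∈ v.asIdeal →
      ∃ q : ℕ, q.Prime ∧ ((q : ℕ) : 𝓞 K) ∈ v.asIdeal := by
    intro n
    induction n using Nat.strong_induction_on with
    | _ n ih =>
      intro hn0 hn
      by_cases hn1 : n = 1
      · subst hn1
        rw [Nat.cast_one] at hn
        exact absurd ((Ideal.eq_top_iff_one _).mpr hn) v.isPrime.ne_top
      · obtain ⟨q, hq, hqn⟩ := Nat.exists_prime_and_dvd hn1
        obtain ⟨k, rfl⟩ := hqn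
        rw [Nat.cast_mul] at hn
        rcases v.isPrime.mem_or_mem hn with h | h
        · exact ⟨q, hq, h⟩
        · have hk0 : k ≠ 0 := by rintro rfl; simp at hn0
          refine ih k ?_ hk0 h
          have := hq.two_le
          nlinarith [Nat.pos_of_ne_zero hk0]
  exact h2 _ h0 h1

lemma not_mem_of_ne {q p : ℕ} (hq : q.Prime) (hp : p.Prime) (hne : q ≠ p)
    (h : ((q : ℕ) : 𝓞 K) ∈ v.asIdeal) : ((p : ℕ) : 𝓞 K) ∉ v.asIdeal := by
  intro h'
  have hco : IsCoprime (q : ℤ) (p : ℤ) := Nat.isCoprime_iff_coprime.mpr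
    ((Nat.coprime_primes hq hp).mpr hne)
  obtain ⟨a, b, hab⟩ := hco
  have h1 : (1 : 𝓞 K) ∈ v.asIdeal := by
    have e : (1 : 𝓞 K) = (a : 𝓞 K) * ((q : ℕ) : 𝓞 K) + (b : 𝓞 K) * ((p : ℕ) : 𝓞 K) := by
      have := congrArg (fun z : ℤ => (z : 𝓞 K)) hab
      push_cast at this
      rw [this]
    rw [e]
    exact add_mem (Ideal.mul_mem_left _ _ h) (Ideal.mul_mem_left _ _ h')
  exact v.isPrime.ne_top ((Ideal.eq_top_iff_one _).mpr h1)

lemma valued_algebraMap (r : 𝓞 K) : Valued.v (algebraMap (𝓞 K) (v.adicCompletion K) r) =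
    v.valuation K (algebraMap (𝓞 K) K r) :=
  HeightOneSpectrum.valuedAdicCompletion_eq_valuation v r

lemma valued_natCast_lt (q : ℕ) (h : ((q : ℕ) : 𝓞 K) ∈ v.asIdeal) :
    Valued.v ((q : ℕ) : v.adicCompletion K) < 1 := by
  have h1 := valued_algebraMap v ((q : ℕ) : 𝓞 K)
  rw [map_natCast] at h1
  rw [h1]
  exact (HeightOneSpectrum.valuation_lt_one_iff_mem v _).mpr h

lemma valued_natCast_eq (q : ℕ) (h : ((q : ℕ) : 𝓞 K) ∉ v.asIdeal) :
    Valued.v ((q : ℕ) : v.adicCompletion K) = 1 := by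
  have h1 := valued_algebraMap v ((q : ℕ) : 𝓞 K)
  rw [map_natCast] at h1
  rw [h1]
  have h3 : ¬ v.valuation K (algebraMap (𝓞 K) K ((q : ℕ) : 𝓞 K)) < 1 := by
    rw [HeightOneSpectrum.valuation_lt_one_iff_mem v _]
    exact h
  exact le_antisymm (HeightOneSpectrum.valuation_le_one (K := K) v ((q : ℕ) : 𝓞 K)) (not_lt.mp h3)

/-- elements of the completion are close to integers -/
lemma exists_close (x : v.adicCompletion K) (hx : Valued.v x ≤ 1) :
    ∃ r : 𝓞 K, Valued.v (algebraMap (𝓞 K) (v.adicCompletion K) r - x) < 1 := by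
  have hd := HeightOneSpectrum.denseRange_algebraMap K v
  have hopen : IsOpen {y : v.adicCompletion K | Valued.v (y - x) < 1} := by
    have h1 := Valued.isOpen_ball (v.adicCompletion K) 1
    have h2 := h1.preimage (continuous_sub_right x)
    simp only [Valuation.restrict_lt_one_iff] at h2
    exact h2
  obtain ⟨y, hy⟩ := hd.exists_mem_open hopen ⟨x, by simp⟩
  have hy' : Valued.v (algebraMap K (v.adicCompletion K) y - x) < 1 := hy
  have hy1 : v.valuation K y ≤ 1 := by
    have h2 : Valued.v (algebraMap K (v.adicCompletion K) y) = v.valuation K y :=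
      HeightOneSpectrum.valuedAdicCompletion_eq_valuation' v y
    rw [← h2]
    have e : algebraMap K (v.adicCompletion K) y =
      (algebraMap K (v.adicCompletion K) y - x) + x := by ring
    rw [e]
    exact (Valuation.map_add _ _ _).trans (max_le hy'.le hx)
  obtain ⟨r, hr⟩ := v.exists_valuation_sub_lt_of_integer hy1 1
  refine ⟨r, ?_⟩
  have h3 : Valued.v (algebraMap (𝓞 K) (v.adicCompletion K) r -
      algebraMap K (v.adicCompletion K) y) < 1 := by
    have h4 : Valued.v (algebraMap K (v.adicCompletion K) (algebraMap (𝓞 K) K r - y)) =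
      v.valuation K (algebraMap (𝓞 K) K r - y) :=
      HeightOneSpectrum.valuedAdicCompletion_eq_valuation' v _
    rw [map_sub, ← IsScalarTower.algebraMap_apply] at h4
    rw [h4]
    simpa using hr
  have e : algebraMap (𝓞 K) (v.adicCompletion K) r - x =
    (algebraMap (𝓞 K) (v.adicCompletion K) r - algebraMap K (v.adicCompletion K) y) +
    (algebraMap K (v.adicCompletion K) y - x) := by ring
  rw [e]
  exact Valuation.map_add_lt _ h3 hy'

/-- Fermat -/
lemma valued_pow_sub (hK : ∀ r : 𝓞 K, ∃ n : ℤ, (n : 𝓞 K) = r) {q : ℕ} (hq : q.Prime)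
    (hqv : ((q : ℕ) : 𝓞 K) ∈ v.asIdeal) (x : v.adicCompletion K) (hx : Valued.v x ≤ 1) :
    Valued.v (x ^ q - x) < 1 := by
  obtain ⟨r, hr⟩ := exists_close v x hx
  obtain ⟨n, rfl⟩ := hK r
  set y : v.adicCompletion K := algebraMap (𝓞 K) (v.adicCompletion K) (n : 𝓞 K) with hy
  have hy1 : Valued.v y ≤ 1 := by
    rw [hy, valued_algebraMap]
    exact v.valuation_le_one _
  have h1 : Valued.v (y ^ q - y) < 1 := by
    have hf : Fact q.Prime := ⟨hq⟩
    have h2 : (q : ℤ) ∣ n ^ q - n := by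
      rw [← ZMod.intCast_zmod_eq_zero_iff_dvd]
      push_cast
      rw [ZMod.pow_card, sub_self]
    obtain ⟨k, hk⟩ := h2
    have h3 : y ^ q - y = algebraMap (𝓞 K) (v.adicCompletion K) ((q : 𝓞 K) * (k : 𝓞 K)) := by
      rw [hy, ← map_pow, ← map_sub]
      congr 1
      have := congrArg (fun z : ℤ => (z : 𝓞 K)) hk
      push_cast at this
      exact this
    rw [h3, valued_algebraMap]
    exact (HeightOneSpectrum.valuation_lt_one_iff_mem v _).mpr (Ideal.mul_mem_right _ _ hqv)
  have h4 : Valued.v (x ^ q - y ^ q) < 1 := by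
    rw [← geom_sum₂_mul x y q, map_mul]
    have h5 : Valued.v (∑ i ∈ Finset.range q, x ^ i * y ^ (q - 1 - i)) ≤ 1 := by
      apply Valuation.map_sum_le
      intro i _
      rw [map_mul, map_pow, map_pow]
      exact mul_le_one' (pow_le_one' hx _) (pow_le_one' hy1 _)
    rw [Valuation.map_sub_swap _ x y]
    exact mul_lt_one_of_nonneg_of_lt_one_right h5 zero_le hr
  have e : x ^ q - x = (x ^ q - y ^ q) + ((y ^ q - y) + (y - x)) := by ring
  rw [e]
  exact Valuation.map_add_lt _ h4 (Valuation.map_add_lt _ h1 hr)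

/-- a valuation subring of the algebraic closure -/
lemma exists_val : ∃ W : ValuationSubring (AlgebraicClosure (v.adicCompletion K)),
    (∀ x : v.adicCompletion K, Valued.v x ≤ 1 → W.valuation (algebraMap _ _ x) ≤ 1) ∧
    (∀ x : v.adicCompletion K, Valued.v x < 1 → W.valuation (algebraMap _ _ x) < 1) := by
  obtain ⟨V, hV, hloc⟩ := IsLocalRing.exists_factor_valuationRing
    ((algebraMap (v.adicCompletion K) (AlgebraicClosure (v.adicCompletion K))).comp
      (v.adicCompletionIntegers K).subtype)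
  refine ⟨V, fun x hx => ?_, fun x hx => ?_⟩
  · rw [ValuationSubring.valuation_le_one_iff]
    exact hV ⟨x, hx⟩
  · have hmem : algebraMap _ (AlgebraicClosure (v.adicCompletion K)) x ∈ V := hV ⟨x, hx.le⟩
    rw [← ValuationSubring.valuation_lt_one_iff V ⟨_, hmem⟩]
    rw [IsLocalRing.mem_maximalIdeal, mem_nonunits_iff]
    intro hu
    have h2 := hloc.map_nonunit (⟨x, hx.le⟩ : v.adicCompletionIntegers K) hu
    have h3 := (HeightOneSpectrum.adicCompletionIntegers.isUnit_iff_valued_eq_one).mp h2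
    exact absurd h3 hx.ne

lemma coeff_minpoly (ζ : AlgebraicClosure (v.adicCompletion K)) {p : ℕ} (hp : p ≠ 0)
    (hζ : ζ ^ p = 1) (i : ℕ) : Valued.v ((minpoly (v.adicCompletion K) ζ).coeff i) ≤ 1 := by
  have hint : IsIntegral (v.adicCompletionIntegers K) ζ := by
    refine ⟨X ^ p - 1, monic_X_pow_sub_C 1 hp, ?_⟩
    simp [hζ]
  rw [minpoly.isIntegrallyClosed_eq_field_fractions' (v.adicCompletion K) hint, coeff_map]
  exact ((minpoly (v.adicCompletionIntegers K) ζ).coeff i).2

/-- the Frobenius automorphism -/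
lemma exists_frob (hK : ∀ r : 𝓞 K, ∃ n : ℤ, (n : 𝓞 K) = r) {p q : ℕ} (hq : q.Prime)
    (hqv : ((q : ℕ) : 𝓞 K) ∈ v.asIdeal) (hp : p.Prime) (hpq : q ≠ p)
    (ζ : AlgebraicClosure (v.adicCompletion K)) (hζ : ζ ^ p = 1) :
    ∃ τ : AlgebraicClosure (v.adicCompletion K) ≃ₐ[v.adicCompletion K]
      AlgebraicClosure (v.adicCompletion K), τ ζ = ζ ^ q := by
  obtain ⟨W, hW1, hW2⟩ := exists_val v
  have hint : IsIntegral (v.adicCompletion K) ζ := Algebra.IsIntegral.isIntegral ζ
  have hWq : W.valuation ((q : ℕ) : AlgebraicClosure (v.adicCompletion K)) < 1 := by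
    have := hW2 _ (valued_natCast_lt v q hqv)
    rwa [map_natCast] at this
  have hWp : W.valuation ((p : ℕ) : AlgebraicClosure (v.adicCompletion K)) = 1 := by
    have h1 := valued_natCast_eq v p (not_mem_of_ne v hq hp hpq hqv)
    have h2 := hW1 _ h1.le
    have h3 := hW1 (((p : ℕ) : v.adicCompletion K)⁻¹) (by rw [map_inv₀, h1, inv_one])
    rw [map_natCast] at h2
    rw [map_inv₀, map_natCast, map_inv₀] at h3
    refine le_antisymm h2 ?_
    have h4 : W.valuation ((p : ℕ) : AlgebraicClosure (v.adicCompletion K)) ≠ 0 := by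
      rw [Valuation.ne_zero_iff, ← map_natCast (algebraMap (v.adicCompletion K)
        (AlgebraicClosure (v.adicCompletion K)))]
      intro h5
      have h6 : ((p : ℕ) : v.adicCompletion K) = 0 :=
        (algebraMap (v.adicCompletion K) (AlgebraicClosure (v.adicCompletion K))).injective
          (by rw [h5, map_zero])
      rw [h6, map_zero] at h1
      exact zero_ne_one h1
    exact (inv_le_one₀ (zero_lt_iff.mpr h4)).mp h3
  have h1 := frob_root (k := v.adicCompletion K) W hp hq hWp hWq ζ hζ hint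
    (fun i => hW1 _ (coeff_minpoly v ζ hp.ne_zero hζ i))
    (fun i => by
      have := hW2 _ (valued_pow_sub v hK hq hqv _ (coeff_minpoly v ζ hp.ne_zero hζ i))
      rwa [map_sub, map_pow] at this)
  have h2 : minpoly (v.adicCompletion K) (ζ ^ q) = minpoly (v.adicCompletion K) ζ :=
    (minpoly.eq_of_irreducible_of_monic (minpoly.irreducible hint) h1
      (minpoly.monic hint)).symm
  obtain ⟨σ, hσ⟩ := (Normal.minpoly_eq_iff_mem_orbit (AlgebraicClosure (v.adicCompletion K))).mp h2
  exact ⟨σ, hσ⟩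

end

end Run7.h332
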