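import Mathlib
import Pool.Agent.Run7.h332.Loc
import Pool.Agent.Run7.h332.Fld

set_option autoImplicit false

/-!
# Local degrees
-/

namespace Run7.h332

open Polynomial NumberField IsDedekindDomain Module
open Pool.Agent.H58P (Qb ht qb_isIntegral)

namespace Dat
variable (D : Dat)

lemma ne_of_le {n q : ℕ} (hq : q.Prime) (hq2 : q ≠ 2) (hqn : q ≤ n) : q ≠ D.p n := by
  intro h
  have h1 := D.hq n q hq hq2 hqn
  rw [h, ZMod.natCast_self] at h1
  have hp := D.hp n
  have hm := D.hm n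
  have h2 : 2 ^ (n + 1) * D.m n ≠ 0 := by
    intro h3
    have h4 : 2 ^ (n + 2) * D.m n = 2 * (2 ^ (n + 1) * D.m n) := by ring
    rw [h4, h3] at hm
    have := hp.two_le
    omega
  rw [zero_pow h2] at h1
  exact zero_ne_one (neg_eq_zero.mp h1.symm).symm

variable {K : Type*} [Field K] [NumberField K]
  (v : HeightOneSpectrum (𝓞 K))

theorem le_natDegree (hK : ∀ r : 𝓞 K, ∃ n : ℤ, (n : 𝓞 K) = r) {n q : ℕ} (hq : q.Prime)
    (hq2 : q ≠ 2) (hqn : q ≤ n) (hqv : ((q : ℕ) : 𝓞 K) ∈ v.asIdeal)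
    (ι : Qb →+* AlgebraicClosure (v.adicCompletion K)) :
    2 ^ (n + 2) ≤ (minpoly (v.adicCompletion K) (ι (D.gen n))).natDegree := by
  classical
  have hp := D.hp n
  have hne : q ≠ D.p n := D.ne_of_le hq hq2 hqn
  set ζ' := ι (D.ζ n) with hζ'
  have hζp : ζ' ^ D.p n = 1 := by
    rw [hζ', ← map_pow, (D.hζ n).pow_eq_one, map_one]
  obtain ⟨τ, hτ⟩ := exists_frob v hK hq hqv hp hne ζ' hζp
  have hco : Nat.Coprime q (D.p n) := (Nat.coprime_primes hq hp).mpr hne
  set u : (ZMod (D.p n))ˣ := ZMod.unitOfCoprime q hco with hu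
  have huv : ((u : ZMod (D.p n))).val = q % D.p n := by
    rw [hu, ZMod.coe_unitOfCoprime, ZMod.val_natCast]
  have hq' : ζ' ^ q = ζ' ^ (u : ZMod (D.p n)).val := by
    rw [huv]
    conv_lhs => rw [← Nat.div_add_mod q (D.p n), pow_add, pow_mul, hζp, one_pow, one_mul]
  have hstep : ∀ a : (ZMod (D.p n))ˣ, τ (per (D.m n) ζ' a) = per (D.m n) ζ' (u * a) := by
    intro a
    have h1 : τ (per (D.m n) ζ' a) = per (D.m n) (τ ζ') a :=
      map_per (D.m n) (τ : AlgebraicClosure (v.adicCompletion K) →+*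
        AlgebraicClosure (v.adicCompletion K)) ζ' a
    rw [h1, hτ, hq', per_pow _ _ hζp]
  have hι : ι (D.gen n) = per (D.m n) ζ' 1 := map_per (D.m n) ι (D.ζ n) 1
  have hint : ∀ x : AlgebraicClosure (v.adicCompletion K), IsIntegral (v.adicCompletion K) x :=
    fun x => Algebra.IsIntegral.isIntegral x
  have hroot : ∀ j : ℕ, per (D.m n) ζ' (u ^ j) ∈
      (minpoly (v.adicCompletion K) (ι (D.gen n))).rootSet
        (AlgebraicClosure (v.adicCompletion K)) := by
    intro j
    rw [mem_rootSet_of_ne (minpoly.ne_zero (hint _))]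
    induction j with
    | zero => rw [pow_zero, ← hι]; exact minpoly.aeval _ _
    | succ j ih =>
      rw [pow_succ', ← hstep]
      have h2 := aeval_algHom_apply (τ : AlgebraicClosure (v.adicCompletion K) →ₐ[v.adicCompletion K]
        AlgebraicClosure (v.adicCompletion K)) (per (D.m n) ζ' (u ^ j))
        (minpoly (v.adicCompletion K) (ι (D.gen n)))
      rw [ih, map_zero] at h2
      exact h2
  have hord : orderOf (u ^ D.m n) = 2 ^ (n + 1 + 1) := by
    have h1 : (u ^ D.m n) ^ 2 ^ (n + 1) = -1 := by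
      apply Units.ext
      rw [← pow_mul, mul_comm, Units.val_pow_eq_pow_val, hu, ZMod.coe_unitOfCoprime,
        D.hq n q hq hq2 hqn]
      simp
    have : Fact (Nat.Prime 2) := ⟨Nat.prime_two⟩
    apply orderOf_eq_prime_pow
    · rw [h1]
      intro h2
      have h3 : ((-1 : (ZMod (D.p n))ˣ) : ZMod (D.p n)) = 1 := by rw [h2]; simp
      rw [Units.val_neg, Units.val_one] at h3
      have h4 : (2 : ZMod (D.p n)) = 0 := by linear_combination -h3
      have h5 : ((2 : ℕ) : ZMod (D.p n)) = 0 := by exact_mod_cast h4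
      have h6 := (ZMod.natCast_eq_zero_iff _ _).mp h5
      have h7 := (Nat.prime_dvd_prime_iff_eq hp Nat.prime_two).mp h6
      have hm := D.hm n
      rw [h7] at hm
      have h8 : 2 ^ (n + 2) * D.m n = 2 * (2 ^ (n + 1) * D.m n) := by ring
      omega
    · rw [pow_succ 2 (n + 1), pow_mul, h1]
      simp
  have hinj : Set.InjOn (fun j : ℕ => per (D.m n) ζ' (u ^ j)) (Finset.range (2 ^ (n + 2))) := by
    intro i hi j hj hij
    have h1 : ι (per (D.m n) (D.ζ n) (u ^ i)) = ι (per (D.m n) (D.ζ n) (u ^ j)) := by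
      rw [map_per, map_per]
      exact hij
    have h2 := per_inj (D.m n) (D.hζ n) (D.m_dvd n) _ _ (ι.injective h1)
    rw [← pow_mul, ← pow_mul, mul_comm i, mul_comm j, pow_mul, pow_mul] at h2
    rw [Finset.coe_range, Set.mem_Iio] at hi hj
    have h3 : (2 : ℕ) ^ (n + 2) = orderOf (u ^ D.m n) := hord.symm
    rw [h3] at hi hj
    exact pow_injOn_Iio_orderOf hi hj h2
  have hcard : ((Finset.range (2 ^ (n + 2))).image (fun j : ℕ => per (D.m n) ζ' (u ^ j))).card =
      2 ^ (n + 2) := by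
    rw [Finset.card_image_of_injOn hinj, Finset.card_range]
  rw [← hcard, ← Set.ncard_coe_finset]
  refine le_trans (Set.ncard_le_ncard ?_ (rootSet_finite _ _)) (ncard_rootSet_le
    (minpoly (v.adicCompletion K) (ι (D.gen n))) (AlgebraicClosure (v.adicCompletion K)))
  intro x hx
  rw [Finset.mem_coe] at hx
  obtain ⟨j, -, rfl⟩ := Finset.mem_image.mp hx
  exact hroot j

/-- the local degree is not finite -/
theorem not_finite (hK : ∀ r : 𝓞 K, ∃ n : ℤ, (n : 𝓞 K) = r) {q : ℕ} (hq : q.Prime)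
    (hq2 : q ≠ 2) (hqv : ((q : ℕ) : 𝓞 K) ∈ v.asIdeal)
    (ι : Qb →+* AlgebraicClosure (v.adicCompletion K)) :
    ¬ FiniteDimensional (v.adicCompletion K)
      (IntermediateField.adjoin (v.adicCompletion K) (ι '' (D.F : Set Qb))) := by
  intro hfin
  set E := IntermediateField.adjoin (v.adicCompletion K) (ι '' (D.F : Set Qb)) with hE
  set n := max q (finrank (v.adicCompletion K) E) with hn
  have h1 := D.le_natDegree v hK hq hq2 (le_max_left q (finrank (v.adicCompletion K) E)) hqv ι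
  have hmem : ι (D.gen n) ∈ E := by
    apply IntermediateField.subset_adjoin
    refine ⟨D.gen n, ?_, rfl⟩
    exact IntermediateField.subset_adjoin ℚ _ ⟨n, rfl⟩
  have h2 : minpoly (v.adicCompletion K) (ι (D.gen n)) =
      minpoly (v.adicCompletion K) (⟨ι (D.gen n), hmem⟩ : E) := by
    rw [← minpoly.algebraMap_eq (algebraMap E (AlgebraicClosure (v.adicCompletion K))).injective]
    rfl
  have h3 := minpoly.natDegree_le (A := v.adicCompletion K) (⟨ι (D.gen n), hmem⟩ : E)
  rw [← h2] at h3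
  have h4 : n < 2 ^ n := Nat.lt_two_pow_self
  have h5 : 2 ^ n ≤ 2 ^ (n + 2) := Nat.pow_le_pow_right (by norm_num) (by omega)
  have h6 : finrank (v.adicCompletion K) E ≤ n := le_max_right _ _
  have h7 : 2 ^ (n + 2) ≤ (minpoly (v.adicCompletion K) (ι (D.gen n))).natDegree := h1
  omega

end Dat

end Run7.h332
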